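import Pool.Agent.Lib.MP_0d9445_pr.Fin.Stmt

/-! Moebius automorphisms of unbounded domains are affine. -/

open Set

noncomputable section

namespace Pool.Agent.Lib.MP_0d9445_pr

variable {O : Set ℂ} {ψ : ℂ → ℂ}

theorem IsAut.meas (h : IsAut O ψ) : Measurable ψ := by
  obtain ⟨a, b, c, e, -, h2, -⟩ := h
  have : ψ = fun z => (a * z + b) / (c * z + e) := funext h2
  rw [this]
  fun_prop

theorem IsAut.affine' (h : IsAut O ψ) (hO : ¬ Bornology.IsBounded O) :
    ∃ a b : ℂ, a ≠ 0 ∧ ψ = fun z => a * z + b := by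
  obtain ⟨a, b, c, e, h1, h2, h3⟩ := h
  have him : ψ '' O = O := h3.image_eq
  have hbd : ∀ M : ℝ, (∀ z ∈ O, ‖ψ z‖ ≤ M) → False := fun M hM => by
    apply hO
    rw [← him]
    refine (Metric.isBounded_closedBall (x := (0 : ℂ)) (r := M)).subset ?_
    rintro _ ⟨z, hz, rfl⟩
    simpa using hM z hz
  have hc : c = 0 := by
    by_contra hc
    have hp : -e / c ∉ closure O := fun hp => h1 _ hp (by field_simp; ring)
    obtain ⟨ε, hε, hb⟩ := Metric.isOpen_iff.1 isClosed_closure.isOpen_compl _ hp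
    have hm : ∀ z ∈ O, ‖c‖ * ε ≤ ‖c * z + e‖ := fun z hz => by
      have e1 : c * z + e = c * (z - -e / c) := by field_simp; ring
      rw [e1, norm_mul]
      refine mul_le_mul_of_nonneg_left ?_ (norm_nonneg _)
      by_contra hlt
      exact hb (show z ∈ Metric.ball (-e / c) ε by
        rw [Metric.mem_ball, dist_eq_norm]; exact not_le.1 hlt) (subset_closure hz)
    have hc0 : 0 < ‖c‖ := norm_pos_iff.2 hc
    refine hbd (‖a / c‖ + ‖(b * c - a * e) / c‖ / (‖c‖ * ε)) fun z hz => ?_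
    have hz0 := h1 z (subset_closure hz)
    have e2 : ψ z = a / c + ((b * c - a * e) / c) / (c * z + e) := by
      rw [h2, div_eq_iff hz0, add_mul, div_mul_cancel₀ _ hz0]; field_simp; ring
    rw [e2]
    refine (norm_add_le _ _).trans (add_le_add le_rfl ?_)
    rw [norm_div _ (c * z + e)]
    exact div_le_div_of_nonneg_left (norm_nonneg _) (mul_pos hc0 hε) (hm z hz)
  subst hc
  have e3 : ψ = fun z => a / e * z + b / e := funext fun z => by
    rw [h2, zero_mul, zero_add]; ring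
  refine ⟨a / e, b / e, fun h0 => hbd ‖b / e‖ fun z _ => ?_, e3⟩
  rw [e3]
  simp [h0]

theorem IsAut.affine (h : IsAut O ψ) (hO : O = univ ∨ O = UH) :
    ∃ a b : ℂ, a ≠ 0 ∧ ψ = fun z => a * z + b := by
  refine h.affine' fun hb => ?_
  obtain ⟨M, hM⟩ := hb.exists_norm_le
  have hz : ((|M| + 1 : ℝ) : ℂ) * Complex.I ∈ O := by
    rcases hO with rfl | rfl
    · trivial
    · show 0 < (((|M| + 1 : ℝ) : ℂ) * Complex.I).im
      rw [Complex.mul_I_im, Complex.ofReal_re]
      positivity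
  have := hM _ hz
  rw [norm_mul, Complex.norm_I, mul_one, Complex.norm_real, Real.norm_eq_abs,
    abs_of_pos (by positivity)] at this
  linarith [le_abs_self M]

/-- on a bounded open set the map is continuous up to the boundary with Lipschitz inverse -/
theorem IsAut.anti (h : IsAut O ψ) (hO : IsOpen O) (hb : Bornology.IsBounded O) :
    ContinuousOn ψ (closure O) ∧
      ∃ L : ℝ, 0 < L ∧ ∀ x ∈ closure O, ∀ y ∈ closure O, ‖x - y‖ ≤ L * ‖ψ x - ψ y‖ := by
  obtain ⟨a, b, c, e, h1, h2, h3⟩ := h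
  have e0 : ψ = fun z => (a * z + b) / (c * z + e) := funext h2
  refine ⟨?_, ?_⟩
  · rw [e0]
    exact ContinuousOn.div (by fun_prop) (by fun_prop) h1
  rcases O.eq_empty_or_nonempty with rfl | ⟨p, hp⟩
  · exact ⟨1, one_pos, by simp⟩
  have key : ∀ x ∈ closure O, ∀ y ∈ closure O,
      (ψ x - ψ y) * ((c * x + e) * (c * y + e)) = (a * e - b * c) * (x - y) := fun x hx y hy => by
    have hx0 : ψ x * (c * x + e) = a * x + b := by rw [h2, div_mul_cancel₀ _ (h1 x hx)]
    have hy0 : ψ y * (c * y + e) = a * y + b := by rw [h2, div_mul_cancel₀ _ (h1 y hy)]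
    linear_combination (c * y + e) * hx0 - (c * x + e) * hy0
  have hD : a * e - b * c ≠ 0 := fun h0 => by
    obtain ⟨ε, hε, hs⟩ := Metric.isOpen_iff.1 hO p hp
    have hq : p + ((ε / 2 : ℝ) : ℂ) ∈ O := hs (by
      rw [Metric.mem_ball, dist_eq_norm, add_sub_cancel_left, Complex.norm_real, Real.norm_eq_abs,
        abs_of_pos (by positivity)]
      linarith)
    have k := key _ (subset_closure hq) _ (subset_closure hp)
    rw [h0, zero_mul, mul_eq_zero] at k
    rcases k with k | k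
    · have := h3.injOn hq hp (sub_eq_zero.1 k)
      have h4 : ((ε / 2 : ℝ) : ℂ) = 0 := by simpa using this
      have h5 : ε / 2 = 0 := by exact_mod_cast h4
      linarith
    · exact mul_ne_zero (h1 _ (subset_closure hq)) (h1 _ (subset_closure hp)) k
  obtain ⟨M, hM⟩ := hb.closure.exists_norm_le
  have hK : ∀ x ∈ closure O, ‖c * x + e‖ ≤ ‖c‖ * |M| + ‖e‖ + 1 := fun x hx => by
    have h4 := norm_add_le (c * x) e
    rw [norm_mul] at h4
    have h5 := mul_le_mul_of_nonneg_left ((hM x hx).trans (le_abs_self M)) (norm_nonneg c)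
    linarith
  have hD0 : 0 < ‖a * e - b * c‖ := norm_pos_iff.2 hD
  set K : ℝ := ‖c‖ * |M| + ‖e‖ + 1 with hKd
  have hK0 : 0 < K := by positivity
  refine ⟨K * K / ‖a * e - b * c‖, by positivity, fun x hx y hy => ?_⟩
  have k := congrArg norm (key x hx y hy)
  rw [norm_mul, norm_mul, norm_mul] at k
  rw [div_mul_eq_mul_div, le_div_iff₀ hD0, mul_comm ‖x - y‖, ← k, mul_comm (K * K)]
  exact mul_le_mul_of_nonneg_left
    (mul_le_mul (hK x hx) (hK y hy) (norm_nonneg _) hK0.le) (norm_nonneg _)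

end Pool.Agent.Lib.MP_0d9445_pr
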