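import Pool.Agent.Lib.MP_0d9445_pr.Bd.ExChart

/-! The hypotheses for the existence of the clock pass to the image under a map with Lipschitz
inverse. -/

open MeasureTheory ProbabilityTheory Set Filter Topology Real
open scoped NNReal ENNReal

noncomputable section

namespace Pool.Agent.Lib.MP_0d9445_pr.Bd.Ex

open BM Walk

theorem Loc.map_anti {μ : Measure ℂ} {O O' : Set ℂ} {ψ : ℂ → ℂ} {L : ℝ} (h : Loc μ O)
    (hb : Bornology.IsBounded O) (hO' : IsOpen O') (hm : Measurable ψ) (hi : ψ '' O = O')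
    (hc : ContinuousOn ψ (closure O)) (hL : 0 < L)
    (ha : ∀ x ∈ closure O, ∀ y ∈ closure O, ‖x - y‖ ≤ L * ‖ψ x - ψ y‖) : Loc (μ.map ψ) O' := by
  have hK0 : IsCompact (closure O) := hb.isCompact_closure
  have hin : ∀ z ∈ closure O, ψ z ∈ O' → z ∈ O := fun z hz k => by
    obtain ⟨y, hy, e⟩ := hi.ge k
    have := ha y (subset_closure hy) z hz
    rw [e, sub_self, norm_zero, mul_zero] at this
    rwa [← sub_eq_zero.1 (norm_le_zero_iff.1 this)]
  have ml : ∀ S T : Set ℂ, MeasurableSet S → (∀ z ∈ O, ψ z ∈ S → z ∈ T) →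
      μ.map ψ S ≤ μ T := fun S T hS k => by
    rw [Measure.map_apply hm hS, ← measure_inter_conull h.supp]
    exact measure_mono fun z hz => k z hz.2 hz.1
  have hO : μ.map ψ O'ᶜ = 0 := le_zero_iff.1 <| (ml _ ∅ hO'.measurableSet.compl
    fun z a b => (b (hi.le ⟨z, a, rfl⟩)).elim).trans (measure_empty (μ := μ)).le
  refine ⟨hO', hO, fun K hK hKO => ?_, fun x hx => ?_⟩
  · have hK' : IsCompact (closure O ∩ ψ ⁻¹' K) := hK0.of_isClosed_subset
      (hc.preimage_isClosed_of_isClosed isClosed_closure hK.isClosed) inter_subset_left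
    obtain ⟨h1, C, α, r₀, hα, hr, h2⟩ := h.frost _ hK' fun z hz => hin z hz.1 (hKO hz.2)
    refine ⟨(ml _ _ hK.measurableSet fun z a b => mem_inter (subset_closure a) b).trans_lt h1,
      C * L ^ α, α, r₀ / L, hα, div_pos hr hL, fun x hx r a b => ?_⟩
    obtain ⟨z₀, hz₀, rfl⟩ := hi.ge (hKO hx)
    rw [mul_assoc, ← Real.mul_rpow hL.le a.le]
    refine (ml _ _ (Metric.isOpen_ball.measurableSet.inter hK.measurableSet)
      fun z k hk => ?_).trans
      (h2 z₀ ⟨subset_closure hz₀, hx⟩ _ (mul_pos hL a) (by rwa [le_div_iff₀' hL] at b))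
    refine ⟨?_, subset_closure k, hk.2⟩
    have e : dist (ψ z) (ψ z₀) < r := hk.1
    rw [dist_eq_norm] at e
    rw [Metric.mem_ball, dist_eq_norm]
    exact (ha z (subset_closure k) z₀ (subset_closure hz₀)).trans_lt (mul_lt_mul_of_pos_left e hL)
  by_cases h1 : x ∈ closure O'
  swap
  · obtain ⟨ρ, hρ, h2⟩ := Metric.isOpen_iff.1 isClosed_closure.isOpen_compl x h1
    refine ⟨1, ρ, one_pos, one_le_two, hρ, ?_⟩
    rw [setLIntegral_measure_zero _ _ (measure_mono_null
      (h2.trans (compl_subset_compl.2 subset_closure)) hO)]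
    exact ENNReal.zero_lt_top
  obtain ⟨z, hz, rfl⟩ := closure_minimal (hi.ge.trans (image_mono subset_closure))
    (hK0.image_of_continuousOn hc).isClosed h1
  have hzO : z ∉ O := fun k => hx (hi.le ⟨z, k, rfl⟩)
  obtain ⟨α, ρ, hα, hα2, hρ, h3⟩ := h.bd z hzO
  refine ⟨α, ρ / L, hα, hα2, div_pos hρ hL, ?_⟩
  rw [setLIntegral_map Metric.isOpen_ball.measurableSet (by fun_prop) hm,
    setLIntegral_congr (inter_ae_eq_left_of_ae_eq_univ (ae_eq_univ.2 h.supp)).symm]
  refine (setLIntegral_mono' (g := fun y => ENNReal.ofReal (L ^ α) * ENNReal.ofReal (‖z - y‖ ^ (-α)))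
    ((hm Metric.isOpen_ball.measurableSet).inter h.isOpen.measurableSet) fun y hy => ?_).trans_lt
    ((lintegral_mono_set (t := Metric.ball z ρ) fun y hy => ?_).trans_lt ?_)
  · rw [← ENNReal.ofReal_mul (by positivity)]
    refine ENNReal.ofReal_le_ofReal ?_
    have h7 : 0 < ‖z - y‖ := norm_pos_iff.2 (sub_ne_zero.2 fun e => hzO (e ▸ hy.2))
    have h8 : ‖z - y‖ / L ≤ ‖ψ z - ψ y‖ := by
      rw [div_le_iff₀' hL]
      exact ha z hz y (subset_closure hy.2)
    refine (Real.rpow_le_rpow_of_nonpos (div_pos h7 hL) h8 (neg_nonpos.2 hα.le)).trans_eq ?_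
    rw [Real.div_rpow h7.le hL.le, Real.rpow_neg hL.le, div_inv_eq_mul, mul_comm]
  · have e : dist (ψ y) (ψ z) < ρ / L := hy.1
    rw [dist_eq_norm, lt_div_iff₀' hL] at e
    rw [Metric.mem_ball, dist_eq_norm]
    exact (ha y (subset_closure hy.2) z hz).trans_lt e
  · rw [lintegral_const_mul' _ _ ENNReal.ofReal_ne_top]
    exact ENNReal.mul_lt_top ENNReal.ofReal_lt_top h3

end Pool.Agent.Lib.MP_0d9445_pr.Bd.Ex
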