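import Pool.Agent.Lib.MP_0d9445_pr.Stmt
import Pool.Agent.Lib.MP_0d9445_pr.BM.RevuzA
import Pool.Agent.Lib.MP_0d9445_pr.BM.TimeChange

/-! Brownian motion and its clocks under an affine map of the plane. -/

open MeasureTheory ProbabilityTheory Set Filter Topology
open scoped NNReal ENNReal

noncomputable section

namespace Pool.Agent.Lib.MP_0d9445_pr.Fin

open BM BM.RevuzAux

variable {W : Measure Path} {μ : Measure ℂ} {a b : ℂ}

/-- the path `t ↦ a ω (t / |a| ^ 2) + b` -/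
def phi (a b : ℂ) (ω : Path) : Path := ⟨fun t => a * ω (t / ‖a‖₊ ^ 2) + b, by fun_prop⟩

theorem phi_apply (a b : ℂ) (ω : Path) (t : ℝ≥0) : phi a b ω t = a * ω (t / ‖a‖₊ ^ 2) + b := rfl

theorem sq_ne (ha : a ≠ 0) : ‖a‖₊ ^ 2 ≠ 0 := pow_ne_zero _ (nnnorm_ne_zero_iff.2 ha)

theorem phi_mul (ha : a ≠ 0) (b : ℂ) (ω : Path) (t : ℝ≥0) :
    phi a b ω (‖a‖₊ ^ 2 * t) = a * ω t + b := by
  rw [phi_apply, mul_div_cancel_left₀ _ (sq_ne ha)]

theorem measurable_phi (a b : ℂ) : Measurable (phi a b) :=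
  measurable_path_iff.2 fun _ => ((measurable_evalAt _).const_mul a).add_const b

theorem phi_phi (ha : a ≠ 0) (b : ℂ) (ω : Path) : phi a⁻¹ (-(a⁻¹ * b)) (phi a b ω) = ω := by
  ext1 t
  rw [phi_apply, nnnorm_inv, inv_pow, div_inv_eq_mul, mul_comm t, phi_mul ha]
  field_simp
  ring

theorem phi_phi' (ha : a ≠ 0) (b : ℂ) (ω : Path) : phi a b (phi a⁻¹ (-(a⁻¹ * b)) ω) = ω := by
  have := phi_phi (inv_ne_zero ha) (-(a⁻¹ * b)) ω
  rwa [inv_inv, mul_neg, neg_neg, mul_inv_cancel_left₀ ha] at this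

/-- the map on path space as a measurable equivalence -/
def phiE (ha : a ≠ 0) (b : ℂ) : Path ≃ᵐ Path :=
  ⟨⟨phi a b, phi a⁻¹ (-(a⁻¹ * b)), phi_phi ha b, phi_phi' ha b⟩, measurable_phi _ _,
    measurable_phi _ _⟩

theorem shift_phi (ha : a ≠ 0) (b : ℂ) (ω : Path) (s : ℝ≥0) :
    shift (‖a‖₊ ^ 2 * s) (phi a b ω) = phi a b (shift s ω) := by
  ext1 t
  change a * ω ((‖a‖₊ ^ 2 * s + t) / ‖a‖₊ ^ 2) + b = a * ω (s + t / ‖a‖₊ ^ 2) + b
  rw [add_div, mul_div_cancel_left₀ _ (sq_ne ha)]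

theorem measurable_phi_past (ha : a ≠ 0) (b : ℂ) (t : ℝ≥0) :
    @Measurable Path Path (past t) (past (‖a‖₊ ^ 2 * t)) (phi a b) :=
  measurable_past_iff.2 fun _ hs => ((measurable_past_eval
    ((div_le_iff₀' (pos_iff_ne_zero.2 (sq_ne ha))).2 hs)).const_mul a).add_const b

theorem map_phi_zero (hW : IsWiener W) (ha : a ≠ 0) : W.map (phi a 0) = W := by
  have hn : (‖a‖ : ℂ) ≠ 0 := Complex.ofReal_ne_zero.2 (norm_ne_zero_iff.2 ha)
  let u : Circle := ⟨a / ‖a‖, by simp [Submonoid.unitSphere, norm_ne_zero_iff.2 ha]⟩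
  have h1 := hW.map_isometry (rotation u)
  have h2 := hW.map_scale (inv_ne_zero (sq_ne ha))
  have m1 : Measurable fun ω : Path => (⟨fun t => rotation u (ω t), by fun_prop⟩ : Path) :=
    measurable_path_iff.2 fun t => (rotation u).continuous.measurable.comp (measurable_evalAt t)
  have m2 : Measurable fun ω : Path => (⟨fun t => ((√((‖a‖₊ ^ 2)⁻¹ : ℝ≥0))⁻¹ : ℝ) •
      ω ((‖a‖₊ ^ 2)⁻¹ * t), by fun_prop⟩ : Path) :=
    measurable_path_iff.2 fun t => (measurable_evalAt _).const_smul _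
  have h3 := Measure.map_map (μ := W) m1 m2
  rw [h2, h1] at h3
  refine Eq.trans ?_ h3.symm
  congr 1
  funext ω
  ext1 t
  have hu : ∀ z, rotation u z = a / ‖a‖ * z := fun z => rotation_apply u z
  simp only [phi_apply, Function.comp, ContinuousMap.coe_mk, hu, add_zero]
  rw [div_eq_inv_mul t]
  simp only [NNReal.coe_inv, NNReal.coe_pow, coe_nnnorm, Real.sqrt_inv, inv_inv,
    Real.sqrt_sq (norm_nonneg a), Complex.real_smul]
  field_simp

theorem map_phi (hW : IsWiener W) (ha : a ≠ 0) (b z : ℂ) :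
    (Px W z).map (phi a b) = Px W (a * z + b) := by
  conv_rhs => rw [Px, ← map_phi_zero hW ha]
  rw [Px, Measure.map_map (measurable_phi a b) (measurable_start z),
    Measure.map_map (measurable_start _) (measurable_phi a 0)]
  congr 1
  funext ω
  ext1 t
  change a * (z + ω _) + b = a * z + b + (a * ω _ + 0)
  ring

theorem lintegral_aff (ha : a ≠ 0) (b : ℂ) {g : ℂ → ℝ≥0∞} (hg : Measurable g) :
    ∫⁻ x, g (a * x + b) = ((‖a‖₊ ^ 2)⁻¹ : ℝ≥0) * ∫⁻ y, g y := by
  have hd : LinearMap.det (LinearMap.mul ℝ ℂ a) = ‖a‖ ^ 2 := by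
    rw [← Complex.normSq_eq_norm_sq, ← Algebra.norm_complex_apply, Algebra.norm_apply]
    rfl
  have h := Measure.map_linearMap_addHaar_eq_smul_addHaar (volume : Measure ℂ)
    (f := LinearMap.mul ℝ ℂ a) (by rw [hd]; exact pow_ne_zero _ (norm_ne_zero_iff.2 ha))
  have h1 := lintegral_map (μ := (volume : Measure ℂ)) (hg.comp (measurable_add_const b))
    (measurable_const_mul a)
  change Measure.map (fun x => a * x) _ = _ at h
  rw [h, lintegral_smul_measure, hd, abs_of_nonneg (by positivity)] at h1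
  refine h1.symm.trans ?_
  rw [smul_eq_mul]
  congr 1
  · exact ENNReal.ofReal_coe_nnreal (p := (‖a‖₊ ^ 2)⁻¹)
  · exact lintegral_add_right_eq_self g b

/-- an additive monotone function is linear -/
theorem linear_of_add {h : ℝ≥0 → ℝ≥0∞} (h0 : h 0 = 0) (hm : Monotone h)
    (ha : ∀ s t, h (s + t) = h s + h t) (c : ℝ≥0) : h c = c * h 1 := by
  have hn : ∀ (n : ℕ) t, h (n * t) = n * h t := fun n t => by
    induction n with
    | zero => simpa using h0
    | succ n ih => rw [Nat.cast_succ, Nat.cast_succ, add_mul, add_mul, one_mul, one_mul, ha, ih]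
  have h1 : ∀ n : ℕ, h n = n * h 1 := fun n => by simpa using hn n 1
  rcases eq_or_ne c 0 with rfl | hc
  · simpa using h0
  rcases eq_or_ne (h 1) ∞ with ht | ht
  · obtain ⟨n, k⟩ := exists_nat_ge c⁻¹
    have := hm (show 1 ≤ n * c by rwa [inv_le_iff_one_le_mul₀ (pos_iff_ne_zero.2 hc)] at k)
    rw [hn, ht, top_le_iff] at this
    rw [ht, ENNReal.mul_top (ENNReal.coe_ne_zero.2 hc)]
    by_contra k
    exact ENNReal.mul_ne_top (ENNReal.natCast_ne_top n) k this
  have hf : h c ≠ ∞ := ne_top_of_le_ne_top (by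
    rw [h1]; exact ENNReal.mul_ne_top (ENNReal.natCast_ne_top _) ht) (hm (Nat.le_ceil c))
  lift h 1 to ℝ≥0 using ht with y hy
  lift h c to ℝ≥0 using hf with x hx
  have k1 : ∀ n : ℕ, (n : ℝ) * x ≤ (n * c + 1) * y := fun n => by
    have := hm (Nat.le_ceil (n * c))
    rw [hn, h1, ← hx] at this
    have k : (n : ℝ) * x ≤ (⌈(n : ℝ≥0) * c⌉₊ : ℝ) * y := by exact_mod_cast this
    have k' : (⌈(n : ℝ≥0) * c⌉₊ : ℝ) ≤ n * c + 1 := by
      exact_mod_cast (Nat.ceil_lt_add_one (zero_le (a := (n : ℝ≥0) * c))).le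
    exact k.trans (mul_le_mul_of_nonneg_right k' y.2)
  have k2 : ∀ n : ℕ, ((n : ℝ) * c - 1) * y ≤ n * x := fun n => by
    have := hm (Nat.floor_le (zero_le (a := (n : ℝ≥0) * c)))
    rw [hn, h1, ← hx] at this
    have k : (⌊(n : ℝ≥0) * c⌋₊ : ℝ) * y ≤ (n : ℝ) * x := by exact_mod_cast this
    have k' : (n : ℝ) * c < (⌊(n : ℝ≥0) * c⌋₊ : ℝ) + 1 := by
      exact_mod_cast Nat.lt_floor_add_one ((n : ℝ≥0) * c)
    exact (mul_le_mul_of_nonneg_right (by linarith) y.2).trans k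
  have : (x : ℝ) = c * y := by
    by_contra e
    obtain ⟨n, k⟩ := exists_nat_gt ((y : ℝ) / |(x : ℝ) - c * y|)
    rw [div_lt_iff₀ (abs_pos.2 (sub_ne_zero.2 e))] at k
    rcases abs_cases ((x : ℝ) - c * y) with ⟨k3, -⟩ | ⟨k3, -⟩ <;> rw [k3] at k <;>
      linarith [k1 n, k2 n]
  exact_mod_cast this

/-- the Revuz identity over the time interval `[0, c]` -/
theorem revuz_time {A : Path → StieltjesFunction ℝ≥0} (hW : IsWiener W) (hA : PCAF W μ A)
    {f : ℂ → ℝ≥0∞} (hf : Measurable f) (c : ℝ≥0) :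
    ∫⁻ x, ∫⁻ ω, ∫⁻ t in Iic c, f (ω t) ∂(A ω).measure ∂Px W x = c * ∫⁻ y, f y ∂μ := by
  obtain ⟨L, hL, h1, h2⟩ := hA.additive
  have hae := ae_Pm hW hL h1
  have key : ∀ c : ℝ≥0, ∫⁻ x, ∫⁻ ω, ∫⁻ t in Iic c, f (ω t) ∂(A ω).measure ∂Px W x =
      ∫⁻ ω, ini A f c ω ∂Pm W := fun c => by
    rw [← lintegral_Pm hW (measurable_setInt hA.meas (measurable_fev hf) measurableSet_Iic)]
    refine lintegral_congr_ae ?_
    filter_upwards [hae] with ω hω
    have h0 : (A ω).measure {c} = 0 := by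
      rw [StieltjesFunction.measure_singleton, (h2 ω hω).2.1.continuousWithinAt.leftLim_eq,
        sub_self, ENNReal.ofReal_zero]
    exact (setLIntegral_congr (Iio_ae_eq_Iic' h0)).symm
  rw [← hA.revuz f hf, key, key]
  refine linear_of_add (h := fun c => ∫⁻ ω, ini A f c ω ∂Pm W) (by simp [ini])
    (fun s t hst => lintegral_mono fun ω => lintegral_mono_set (Iio_subset_Iio hst))
    (fun s t => ?_) c
  rw [← shift_Pm hW s (measurable_ini hA.meas hf t),
    ← lintegral_add_left (measurable_ini hA.meas hf s)]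
  refine lintegral_congr_ae ?_
  filter_upwards [hae] with ω hω
  rw [← piece (h2 ω hω).2.1 ((h2 ω hω).2.2 s), ini, ini, ← Iio_union_Ico_eq_Iio le_self_add,
    lintegral_union measurableSet_Ico (A := Iio s)
      (disjoint_left.2 fun t k1 k2 => absurd k2.1 (not_le.2 k1))]

/-- the function `t ↦ A (c t)` -/
def tsc (c : ℝ≥0) (A : StieltjesFunction ℝ≥0) : StieltjesFunction ℝ≥0 where
  toFun t := A (c * t)
  mono' _ _ h := A.mono (mul_le_mul_right h c)
  right_continuous' x := (A.right_continuous (c * x)).comp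
    (continuous_const_mul c).continuousWithinAt fun _ h => mul_le_mul_right h c

theorem tsc_apply (c : ℝ≥0) (A : StieltjesFunction ℝ≥0) (t : ℝ≥0) : tsc c A t = A (c * t) := rfl

theorem tsc_measure {c : ℝ≥0} (hc : c ≠ 0) (A : StieltjesFunction ℝ≥0) :
    A.measure = (tsc c A).measure.map fun t => c * t := by
  refine ext_of_Iic_nnreal (fun s => by simp [measure_Iic_nnreal]) fun s => ?_
  have : (fun t : ℝ≥0 => c * t) ⁻¹' Iic s = Iic (s / c) := by
    ext t
    simp [le_div_iff₀' (pos_iff_ne_zero.2 hc)]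
  rw [Measure.map_apply (measurable_const_mul c) measurableSet_Iic, this, measure_Iic_nnreal,
    measure_Iic_nnreal, tsc_apply, tsc_apply, mul_zero, mul_div_cancel₀ _ hc]

/-- the clock read through the affine map -/
def pull (a b : ℂ) (B : Path → StieltjesFunction ℝ≥0) (ω : Path) : StieltjesFunction ℝ≥0 :=
  tsc (‖a‖₊ ^ 2) (B (phi a b ω))

theorem measurable_aff (a b : ℂ) : Measurable fun z : ℂ => a * z + b := by fun_prop

theorem pcaf_pull {B : Path → StieltjesFunction ℝ≥0} (hW : IsWiener W) (ha : a ≠ 0)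
    (hB : PCAF W (μ.map fun z => a * z + b) B) : PCAF W μ (pull a b B) := by
  have mp : ∀ x, MeasurePreserving (phi a b) (Px W x) (Px W (a * x + b)) := fun x =>
    ⟨measurable_phi a b, map_phi hW ha b x⟩
  refine ⟨fun t => (hB.meas _).comp (measurable_phi a b), fun x t => ?_, ?_, fun f hf => ?_⟩
  · obtain ⟨g, hg, e⟩ := hB.adapted (a * x + b) (‖a‖₊ ^ 2 * t)
    exact ⟨g ∘ phi a b, hg.comp_measurable (measurable_phi_past ha b t),
      (mp x).quasiMeasurePreserving.ae_eq_comp e⟩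
  · obtain ⟨L, hL, h1, h2⟩ := hB.additive
    refine ⟨phi a b ⁻¹' L, measurable_phi a b hL,
      fun x => (mp x).quasiMeasurePreserving.ae (h1 _), fun ω hω => ?_⟩
    obtain ⟨k1, k2, k3⟩ := h2 _ hω
    refine ⟨by rwa [pull, tsc_apply, mul_zero], k2.comp (continuous_const_mul _), fun s t => ?_⟩
    simp only [pull, tsc_apply]
    rw [mul_add, k3, shift_phi ha]
  · have hg : Measurable fun y => f (a⁻¹ * y + -(a⁻¹ * b)) := hf.comp (measurable_aff _ _)
    have e : ∀ z, a⁻¹ * (a * z + b) + -(a⁻¹ * b) = z := fun z => by field_simp; ring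
    have hG := measurable_setInt hB.meas (measurable_fev hg) (measurableSet_Iic (a := ‖a‖₊ ^ 2))
    have k : ∀ ω, ∫⁻ t in Iic 1, f (ω t) ∂(pull a b B ω).measure = ∫⁻ t in Iic (‖a‖₊ ^ 2),
        f (a⁻¹ * phi a b ω t + -(a⁻¹ * b)) ∂(B (phi a b ω)).measure := fun ω => by
      have : (fun t : ℝ≥0 => ‖a‖₊ ^ 2 * t) ⁻¹' Iic (‖a‖₊ ^ 2) = Iic 1 := by
        ext t
        simp [mul_le_iff_le_one_right (pos_iff_ne_zero.2 (sq_ne ha))]
      rw [tsc_measure (sq_ne ha) (B _), setLIntegral_map measurableSet_Iic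
        (f := fun t => f (a⁻¹ * phi a b ω t + -(a⁻¹ * b))) (hg.comp (phi a b ω).continuous.measurable) (measurable_const_mul _), this]
      simp only [phi_mul ha, e]
      rfl
    simp only [k]
    have k2 : ∀ x, ∫⁻ ω, ∫⁻ t in Iic (‖a‖₊ ^ 2), f (a⁻¹ * phi a b ω t + -(a⁻¹ * b))
        ∂(B (phi a b ω)).measure ∂Px W x = ∫⁻ ω, ∫⁻ t in Iic (‖a‖₊ ^ 2),
          f (a⁻¹ * ω t + -(a⁻¹ * b)) ∂(B ω).measure ∂Px W (a * x + b) := fun x =>
      (mp x).lintegral_comp hG
    simp only [k2]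
    rw [lintegral_aff ha b (measurable_lintegral_Px hW hG), revuz_time hW hB hg,
      lintegral_map hg (measurable_aff a b), ← mul_assoc, ← ENNReal.coe_mul,
      inv_mul_cancel₀ (sq_ne ha), ENNReal.coe_one, one_mul]
    simp only [e]

theorem pcaf_push {B : Path → StieltjesFunction ℝ≥0} (hW : IsWiener W) (ha : a ≠ 0) (b : ℂ)
    (hB : PCAF W μ B) : PCAF W (μ.map fun z => a * z + b) (pull a⁻¹ (-(a⁻¹ * b)) B) := by
  refine pcaf_pull hW (inv_ne_zero ha) ?_
  rw [Measure.map_map (measurable_aff _ _) (measurable_aff _ _)]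
  have e : ((fun z => a⁻¹ * z + -(a⁻¹ * b)) ∘ fun z => a * z + b) = id := funext fun z => by
    simp only [Function.comp, id]
    field_simp
    ring
  rwa [e, Measure.map_id]

/-- existence of the clock passes to the affine image -/
theorem exists_aff (ha : a ≠ 0) (b : ℂ) (h : ∀ W, IsWiener W → ∃ B, PCAF W μ B) :
    ∀ W, IsWiener W → ∃ B, PCAF W (μ.map fun z => a * z + b) B := fun W hW =>
  (h W hW).elim fun _ hB => ⟨_, pcaf_push hW ha b hB⟩

end Pool.Agent.Lib.MP_0d9445_pr.Fin
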