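import Pool.Agent.Lib.MP_0d9445_pr.Fin.Main
import Pool.Agent.Lib.MP_0d9445_pr.Fin.AffP
import Pool.Agent.Lib.MP_0d9445_pr.Fin.AffAut
import Pool.Agent.Lib.MP_0d9445_pr.Fin.AffLoc
import Pool.Agent.Lib.MP_0d9445_pr.Bd.Ex

/-! The convergence of the walk under an affine change of the embedding. -/

open MeasureTheory ProbabilityTheory Set Filter Topology
open scoped NNReal ENNReal

noncomputable section

namespace Pool.Agent.Lib.MP_0d9445_pr

open BM Walk AS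

namespace Fin

variable {W : Measure Path} {μ : Measure ℂ} {a b : ℂ} {O S Y : Set ℂ} {d d' : Met} {ψ : ℂ → ℂ}

theorem continuous_lbm {ω : Path} {A : StieltjesFunction ℝ≥0}
    (hs : ∀ s t : ℝ≥0, s < t → (∀ r ≤ t, ω r ∈ O) → A s < A t)
    (he : ∀ t : ℝ, ∃ s : ℝ≥0, t < A s ∨ ω s ∉ O) : Continuous (lbmPath ω A O) := by
  have key : ∀ T : ℝ≥0, (T : ℝ≥0∞) ≤ exitT O ω → Continuous (PfB10.tc A T) := fun T hT =>
    PfB10.continuous_tc fun r r' h1 h2 => by
      obtain ⟨q, q1, q2⟩ := exists_between h1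
      exact (hs r q q1 fun u hu => mem_of_lt_exitT
        ((ENNReal.coe_lt_coe.2 ((hu.trans_lt q2).trans_le h2)).trans_le hT)).trans_le (A.mono q2.le)
  rw [funext (PfB10.lbm_eq A O ω)]
  refine ω.continuous.comp ?_
  rcases eq_or_ne (exitT O ω) ∞ with h | h
  · refine continuous_iff_continuousAt.2 fun t => ?_
    obtain ⟨T, k | k⟩ := he t
    · refine (key T (h ▸ le_top)).continuousAt.congr ?_
      filter_upwards [Iio_mem_nhds k] with s hs
      rw [PfB10.tc, PfB10.tc, h, min_eq_left (ginv_le hs), min_eq_left le_top]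
    · exact absurd (exitT_le_of_notMem k) (by simp [h])
  · rw [← ENNReal.coe_toNNReal h]
    exact key _ (ENNReal.coe_toNNReal h).le

theorem clock_cont {A : Path → StieltjesFunction ℝ≥0} {x : ℂ} (h : IsClock W μ O x A) :
    ∀ᵐ (ω : Path) ∂Px W x, Continuous (lbmPath ω (A ω) O) := by
  filter_upwards [h.strict, h.exhaust] with ω h1 h2 using continuous_lbm h1 h2

/-- the time-changed path is continuous -/
def Cont (O : Set ℂ) (μ : Measure ℂ) : Prop :=
  ∀ W, IsWiener W → ∀ B, PCAF W μ B → ∀ z ∈ O,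
    ∀ᵐ (ω : Path) ∂Px W z, Continuous (lbmPath ω (B ω) O)

theorem cont_univ [SigmaFinite μ] {Z : Set ℂ} (hZ : Z.Finite) (hm : MeasOK μ Zᶜ) : Cont univ μ :=
  fun _ hW _ hB z _ => clock_cont (clock_of hW hB hZ hm z)

theorem cont_chart {χ χi : ℂ → ℂ} {E : Set ℂ} (c : Bd.Chart χ χi O E) [SigmaFinite (μ.map χ)]
    (h0 : μ UHᶜ = 0) (hm : MeasOK μ UH) : Cont O (μ.map χ) := fun _ hW _ hB z _ =>
  clock_cont (Bd.clock_chart_ok hW c h0
    (isPCAF_of_revuz hW hB.meas hB.adapted hB.additive hB.revuz) hm z)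

theorem cont_interp (m T : ℝ) (w : ℕ → ℂ) : Continuous fun t : Icc (0 : ℝ) T => interp m w t := by
  rcases lt_or_ge 0 m with h | h
  · exact Bd.PgPush.interp_cont Ip_of h T w
  · have : (fun t : Icc (0 : ℝ) T => interp m w t) =
        fun t : Icc (0 : ℝ) T => w 0 + ((m * t : ℝ) : ℂ) * (w 1 - w 0) := funext fun t => by
      simp [interp, Nat.floor_of_nonpos (mul_nonpos_of_nonpos_of_nonneg h t.2.1)]
    rw [this]
    fun_prop

theorem cell_map (hY : Y ⊆ S) (hd : ∀ x ∈ S, ∀ y ∈ S, d' (ψ x, ψ y) = d (x, y)) {y : ℂ}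
    (hy : y ∈ Y) : (vorOn (ψ '' S) d' (ψ '' Y)).H (ψ y) = ψ '' (vorOn S d Y).H y := by
  ext w
  constructor
  · rintro ⟨⟨v, hv, rfl⟩, h⟩
    refine ⟨v, ⟨hv, fun p hp => ?_⟩, rfl⟩
    rw [← hd v hv y (hY hy), ← hd v hv p (hY hp)]
    exact h _ ⟨p, hp, rfl⟩
  · rintro ⟨v, ⟨hv, h⟩, rfl⟩
    refine ⟨⟨v, hv, rfl⟩, ?_⟩
    rintro _ ⟨p, hp, rfl⟩
    rw [hd v hv y (hY hy), hd v hv p (hY hp)]
    exact h p hp

theorem step_map (hi : Function.Injective ψ) (hY : Y ⊆ S)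
    (hd : ∀ x ∈ S, ∀ y ∈ S, d' (ψ x, ψ y) = d (x, y)) {y : ℂ} (hy : y ∈ Y) :
    (vorOn S d Y).step O y ⊆ Y ∧
      (vorOn (ψ '' S) d' (ψ '' Y)).step (ψ '' O) (ψ y) = ψ '' (vorOn S d Y).step O y := by
  refine ⟨?_, ?_⟩
  · rintro w (h | ⟨-, rfl⟩)
    exacts [h.2.2.1, hy]
  ext w
  simp only [Cells.step, Cells.Adj, cell_map hY hd hy, image_subset_image_iff hi, mem_ofPred_eq,
    mem_image]
  constructor
  · rintro (⟨h1, -, ⟨p, hp, rfl⟩, h2, h3⟩ | ⟨h1, rfl⟩)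
    · rw [cell_map hY hd hp, ← image_inter hi, image_nonempty] at h3
      exact ⟨p, Or.inl ⟨h1, hy, hp, fun e => h2 (e ▸ rfl), h3⟩, rfl⟩
    · exact ⟨y, Or.inr ⟨h1, rfl⟩, rfl⟩
  · rintro ⟨p, ⟨h1, -, hp, h2, h3⟩ | ⟨h1, rfl⟩, rfl⟩
    · refine Or.inl ⟨h1, ⟨y, hy, rfl⟩, ⟨p, hp, rfl⟩, hi.ne h2, ?_⟩
      rwa [cell_map hY hd hp, ← image_inter hi, image_nonempty]
    · exact Or.inr ⟨h1, rfl⟩

/-- the affine map as a homeomorphism -/
def aff (ha : a ≠ 0) (b : ℂ) : ℂ ≃ₜ ℂ := (Homeomorph.mulLeft₀ a ha).trans (Homeomorph.addRight b)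

theorem sInf_scale {c : ℝ≥0} (hc : c ≠ 0) (A : Set ℝ≥0) :
    sInf A = c * sInf ((fun r => c * r) ⁻¹' A) := by
  let e := OrderIso.mulLeft₀ c (pos_iff_ne_zero.2 hc)
  have h : A = e '' ((fun r => c * r) ⁻¹' A) := (image_preimage_eq A e.surjective).symm
  rcases ((fun r => c * r) ⁻¹' A).eq_empty_or_nonempty with k | k
  · rw [k, image_empty] at h
    simp [h]
  · conv_lhs => rw [h]
    exact (e.map_csInf' k (OrderBot.bddBelow _)).symm

theorem lbm_phi (ha : a ≠ 0) (B : Path → StieltjesFunction ℝ≥0) (ω : Path) (t : ℝ) :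
    lbmPath (phi a b ω) (B (phi a b ω)) ((fun z => a * z + b) '' O) t =
      a * lbmPath ω (pull a b B ω) O t + b := by
  have hi : Function.Injective fun z => a * z + b := (aff ha b).injective
  have e : (fun r => ‖a‖₊ ^ 2 * r) ⁻¹'
      {s : ℝ≥0 | t < B (phi a b ω) s ∨ phi a b ω s ∉ (fun z => a * z + b) '' O} =
      {s : ℝ≥0 | t < pull a b B ω s ∨ ω s ∉ O} := by
    ext r
    simp only [mem_preimage, mem_ofPred_eq, phi_mul ha, pull, tsc_apply]
    exact or_congr Iff.rfl hi.mem_set_image.not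
  rw [lbmPath, lbmPath, sInf_scale (sq_ne ha), e, phi_mul ha]

theorem toC_aff (ha : a ≠ 0) {T : ℝ} {y : ℝ → ℂ}
    (h : b = 0 ∨ Continuous fun t : Icc (0 : ℝ) T => y t) :
    toC T (fun t => a * y t + b) = (aff ha b : C(ℂ, ℂ)).comp (toC T y) := by
  ext1 t
  change _ = a * toC T y t + b
  by_cases k : Continuous fun t : Icc (0 : ℝ) T => y t
  · rw [Bd.PgPush.toC_apply (y := fun t => a * y t + b) ((k.const_mul a).add_const b),
      Bd.PgPush.toC_apply k]
  · have k' : ¬ Continuous fun t : Icc (0 : ℝ) T => a * y t + b := fun k' =>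
      k ((aff ha b).comp_continuous_iff.1 k')
    rw [toC, toC, dif_neg k, dif_neg k', h.resolve_right k]
    simp

theorem Cont.affine (ha : a ≠ 0) (b : ℂ) (h : Cont O μ) :
    Cont ((fun z => a * z + b) '' O) (μ.map fun z => a * z + b) := by
  rintro W hW B hB _ ⟨z, hz, rfl⟩
  rw [← map_phi hW ha b z]
  refine (phiE ha b).measurableEmbedding.ae_map_iff.2 ?_
  filter_upwards [h W hW _ (pcaf_pull hW ha hB) z hz] with ω hω
  change Continuous (lbmPath (phi a b ω) (B (phi a b ω)) _)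
  rw [funext (lbm_phi ha B ω)]
  fun_prop

theorem Out.affine {Y : ℕ → Set ℂ} {τ : ℕ → ℝ} (ha : a ≠ 0) (hb : b = 0 ∨ Cont O μ)
    (hY : ∀ n, Y n ⊆ closure O)
    (hd : ∀ x ∈ closure O, ∀ y ∈ closure O, d' (a * x + b, a * y + b) = d (x, y))
    (h : Out O d μ Y τ) : Out ((fun z => a * z + b) '' O) d' (μ.map fun z => a * z + b)
      (fun n => (fun z => a * z + b) '' Y n) τ := by
  rintro W hW B hB _ ⟨z, hz, rfl⟩ y' x' hy hx T hT F
  have hi : Function.Injective fun z => a * z + b := (aff ha b).injective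
  have hc : closure ((fun z => a * z + b) '' O) = (fun z => a * z + b) '' closure O :=
    ((aff ha b).image_closure O).symm
  obtain ⟨y, rfl⟩ : ∃ y : ℕ → ℂ, y' = fun n => a * y n + b :=
    ⟨fun n => (aff ha b).symm (y' n), funext fun n => ((aff ha b).apply_symm_apply _).symm⟩
  obtain ⟨x, rfl⟩ : ∃ x : ℕ → ℂ, x' = fun n => a * x n + b :=
    ⟨fun n => (aff ha b).symm (x' n), funext fun n => ((aff ha b).apply_symm_apply _).symm⟩
  rw [hc] at hx ⊢
  have hx' : ∀ᶠ n in atTop, x n ∈ Y n ∧ y n ∈ (vorOn (closure O) d (Y n)).H (x n) := by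
    filter_upwards [hx] with n ⟨k1, k2⟩
    have k3 := hi.mem_set_image.1 k1
    rw [cell_map (ψ := fun z => a * z + b) (hY n) hd k3] at k2
    exact ⟨k3, hi.mem_set_image.1 k2⟩
  have hB' := pcaf_pull hW ha hB
  have := h W hW _ hB' z hz y x ((aff ha b).isInducing.tendsto_nhds_iff.2 hy) hx' T hT
    (F.compContinuous ⟨_, ContinuousMap.continuous_postcomp (aff ha b : C(ℂ, ℂ))⟩)
  have e : ∫ ω, F (toC T fun t => lbmPath ω (B ω) ((fun z => a * z + b) '' O) t)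
      ∂Px W (a * z + b) = ∫ ω, F ((aff ha b : C(ℂ, ℂ)).comp
        (toC T fun t => lbmPath ω (pull a b B ω) O t)) ∂Px W z := by
    rw [← map_phi hW ha b z]
    refine (integral_map_equiv (phiE ha b) _).trans (integral_congr_ae ?_)
    have k : ∀ᵐ (ω : Path) ∂Px W z, b = 0 ∨ Continuous (lbmPath ω (pull a b B ω) O) :=
      hb.elim (fun k => .of_forall fun _ => Or.inl k) fun k => (k W hW _ hB' z hz).mono fun _ =>
        Or.inr
    filter_upwards [k] with ω hω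
    rw [← toC_aff ha (hω.imp id fun k => k.comp continuous_subtype_val)]
    exact congrArg (fun y => F (toC T y)) (funext (lbm_phi ha B ω))
  rw [e]
  refine this.congr' ?_
  filter_upwards [hx'] with n hn
  rw [Bd.MapW_of _ _ (Y n) (fun z => a * z + b) _ _ _ hi.injOn hn.1
    fun p hp => step_map hi (hY n) hd hp]
  congr 1
  funext w
  have : interp (τ n) (fun i => a * w i + b) = fun t => a * interp (τ n) w t + b := by
    funext t
    simp only [interp]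
    ring
  rw [this, toC_aff ha (Or.inr (cont_interp _ _ _))]
  rfl

section Surfaces

open CR Bd

variable {Ω : Type} [MeasurableSpace Ω] {M : Model} {P P₀ : Measure Ω} {Z E : Set ℂ}
  {Y : ℝ≥0 → Ω → Set ℂ} {h φ : Ω → Field} {f g f₁ : Ω → ℂ → ℝ} {d : Ω → Met} {m : Ω → Measure ℂ}
  {χ χi : ℂ → ℂ}

theorem ae_cont_plane [IsProbabilityMeasure P] (F : M.All) (R : RefOK M)
    (hc : IsCone M.γ M.Q P h f ∧ Z = {0} ∨ IsSphere M.γ M.Q M.μ P h f ∧ Z = {0, 1})
    (hS : IsSurf M.γ M.ξ M.D M.μ Z P h f d m) (hY : ∀ l, IsPPP P d m l (Y l)) :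
    ∀ᵐ ω ∂P, Cont univ (m ω) := by
  obtain ⟨hZ, N, h0, hσ⟩ : Z.Finite ∧ ∃ N, Surf M P univ Zᶜ N (fun ω => (d ω, m ω)) Y ∧
      ∀ᵐ ω ∂P, SigmaFinite (m ω) := by
    rcases hc with ⟨hc, rfl⟩ | ⟨hc, rfl⟩
    · exact ⟨toFinite _, _, cone_surf F R hc hS hY⟩
    · exact ⟨toFinite _, _, sphere_surf F R hc hS hY⟩
  filter_upwards [hσ, h0.measOK R] with ω h1 h2 using cont_univ hZ h2

theorem ae_cont_chart (F : M.All) (R : RefOK M) (c : Chart χ χi O E)
    (hS : IsSurfVia M.γ M.ξ M.D M.μ χ O P h f d m) (hY : ∀ l, IsPPP P d m l (Y l))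
    (hB : BSurf0 M P P₀ h φ g f₁ Z (fun ω => c.pull (d ω)) fun ω => (m ω).map (kap χi O E))
    (hac : ACH M P (fun ω => (c.pull (d ω), (m ω).map (kap χi O E))) (Metric.sphere 0 1)) :
    ∀ᵐ ω ∂P, Cont O (m ω) := by
  have := hB.prob
  have ha := c.area hS
  have hs := hB.surfOf F R (fun l => c.ppp (hY l) (ha.mono fun _ a => a.2.2.2))
    (fun _ _ => inter_subset_left) Metric.isClosed_sphere (Measure.addHaar_sphere _ _ _) hac
  filter_upwards [ha, hB.massH F, hs.measOK R] with ω h4 h5 h1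
  have := h5.sigmaFinite_map c
  rw [← h4.2.2.1]
  exact cont_chart c h4.2.1 h1

end Surfaces

end Fin

/-- the clock exists for the image under an automorphism of a bounded domain -/
theorem Bd.Ex.Loc.aut {μ : Measure ℂ} {O : Set ℂ} {ψ : ℂ → ℂ} (h : Bd.Ex.Loc μ O)
    (hb : Bornology.IsBounded O) (hψ : IsAut O ψ) : Bd.Ex.Loc (μ.map ψ) O := by
  obtain ⟨hc, L, hL, ha⟩ := hψ.anti h.isOpen hb
  exact h.map_anti hb h.isOpen hψ.meas (let ⟨_, _, _, _, _, _, k⟩ := hψ; k.image_eq) hc hL ha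

/-- the clock exists for the image under every automorphism of the domain -/
theorem Bd.Ex.Loc.exists_aut {μ : Measure ℂ} {O : Set ℂ} {ψ : ℂ → ℂ} (h : Bd.Ex.Loc μ O)
    (hψ : IsAut O ψ) (W : Measure Path) (hW : IsWiener W) : ∃ B, PCAF W (μ.map ψ) B := by
  by_cases hb : Bornology.IsBounded O
  · exact (h.aut hb hψ).exists hW
  · obtain ⟨a, b, ha, rfl⟩ := hψ.affine' hb
    exact Fin.exists_aff ha b (fun _ k => h.exists k) W hW

end Pool.Agent.Lib.MP_0d9445_pr
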