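import Pool.Agent.Lib.MP_0d9445_pr.Fin.Main
import Pool.Agent.Lib.MP_0d9445_pr.Fx.Main

/-! The five surfaces together. -/

open MeasureTheory ProbabilityTheory Set Filter Topology Real LQ.Met
open scoped NNReal ENNReal

noncomputable section

namespace Pool.Agent.Lib.MP_0d9445_pr.Fin

open CR PPP Walk Cell BM AS

variable {Ω : Type} [MeasurableSpace Ω] {M : Model} {P : Measure Ω}
  {Y : ℝ≥0 → Ω → Set ℂ} {A κ : ℝ → ℝ} {d : Ω → Met} {m : Ω → Measure ℂ} {ℓ a : ℝ}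

theorem area_out [IsProbabilityMeasure P] (F : M.All) (R : RefOK M) (hL : LocalLaw M A κ)
    (hℓ : 0 < ℓ) (hA : IsDiskArea M.γ M.ξ M.Q M.D M.μ ℓ a P d m) (hY : ∀ l, IsPPP P d m l (Y l))
    {l : ℕ → ℝ≥0} (hl : Tendsto l atTop atTop) : ∃ φ : ℕ → ℕ, StrictMono φ ∧ ∀ᵐ ω ∂P,
      (∀ W, IsWiener W → ∃ B, PCAF W (m ω) B) ∧ Out (Metric.ball 0 1) (d ω) (m ω)
        (fun n => Y (l (φ n)) ω) fun n => tau M.γ A κ (l (φ n)) := by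
  obtain ⟨φ, hφ, hE⟩ := Fx.main F R hL hℓ hA hY hl
  refine ⟨φ, hφ, ?_⟩
  filter_upwards [hE] with ω ⟨⟨hm, h0⟩, ⟨h1, h2⟩, h3⟩
  refine ⟨fun W hW => h0.exists hW, fun W hW B hB z hz y x hy hx => ?_⟩
  exact h3 z hz x (hx.mono fun _ a => a.1)
    (centre_tendsto hm (subset_closure hz) (fun n => (h1 n).trans subset_closure)
      (fun ε hε => (h2 z hz ε hε).mono fun _ ⟨p, a, _, b⟩ => ⟨p, a, b⟩) hy hx) W B hW hB

theorem main5 (M : Model) : ∃ τ : ℝ≥0 → ℝ, (∀ l, 0 < τ l) ∧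
    ∀ (Ω : Type) [MeasurableSpace Ω] (P : Measure Ω) [IsProbabilityMeasure P]
      (h : Ω → Field) (f : Ω → ℂ → ℝ) (O : Set ℂ) (d : Ω → Met) (m : Ω → Measure ℂ)
      (Y : ℝ≥0 → Ω → Set ℂ),
      (IsCone M.γ M.Q P h f ∧ O = univ ∧ IsSurf M.γ M.ξ M.D M.μ {0} P h f d m ∨
        IsSphere M.γ M.Q M.μ P h f ∧ O = univ ∧ IsSurf M.γ M.ξ M.D M.μ {0, 1} P h f d m ∨
        IsWedge M.γ M.Q P h f ∧ O = UH ∧ IsSurfVia M.γ M.ξ M.D M.μ id O P h f d m ∨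
        (∃ ℓ > 0, IsDisk M.γ M.Q ℓ P h f) ∧ O = Metric.ball 0 1 ∧
          IsSurfVia M.γ M.ξ M.D M.μ cayley O P h f d m ∨
        (∃ ℓ > 0, ∃ a > 0, IsDiskArea M.γ M.ξ M.Q M.D M.μ ℓ a P d m) ∧ O = Metric.ball 0 1) →
      (∀ l, IsPPP P d m l (Y l)) →
      ∀ l : ℕ → ℝ≥0, Tendsto l atTop atTop → ∃ φ : ℕ → ℕ, StrictMono φ ∧ ∀ᵐ ω ∂P,
        (∀ W, IsWiener W → ∃ B, PCAF W (m ω) B) ∧
          Out O (d ω) (m ω) (fun n => Y (l (φ n)) ω) fun n => τ (l (φ n)) := by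
  have F := M.all
  have R := refOK F
  obtain ⟨A, κ, hL⟩ := localLaw F R (HO.outM F)
  refine ⟨tau M.γ A κ, tau_pos hL, fun Ω _ P _ h f O d m Y hc hY l hl => ?_⟩
  have hh := fun hc => (half_out (h := h) (f := f) (O := O) F R hL hc hY hl).imp
    fun _ c => And.intro c.1 ((Bd.ae_exists_PCAF F R hc).and c.2)
  rcases hc with ⟨a, rfl, b⟩ | ⟨a, rfl, b⟩ | hc | hc | ⟨⟨ℓ, hℓ, a, -, hA⟩, rfl⟩
  · exact plane_out F R hL (Or.inl ⟨a, rfl⟩) b hY hl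
  · exact plane_out F R hL (Or.inr ⟨a, rfl⟩) b hY hl
  · exact hh (Or.inl hc)
  · exact hh (Or.inr hc)
  · exact area_out F R hL hℓ hA hY hl

end Pool.Agent.Lib.MP_0d9445_pr.Fin
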