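import Pool.Agent.Lib.MP_0d9445_pr.Bd.Stmt

/-! Drawing of the edges and change of the embedding. -/

open Set LQ.Met

noncomputable section

namespace Pool.Agent.Lib.MP_0d9445_pr

/-- The edge from `x` to `y` is drawn as a path `e x y` in `S` whose points are within Euclidean
distance `‖y - x‖` of `x` or within `d`-distance `d (x, y)` of `x`. Straight segments and
`d`-geodesics are such paths. -/
def IsEdges (S : Set ℂ) (d : Met) (Y : Set ℂ) (e : ℂ → ℂ → ℝ → ℂ) : Prop :=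
  ∀ x ∈ Y, ∀ y ∈ Y, IsPath S x y (e x y) ∧
    ∀ s ∈ Icc (0 : ℝ) 1, ‖e x y s - x‖ ≤ ‖y - x‖ ∨ d (x, e x y s) ≤ d (x, y)

/-- The path through `w 0, w 1, ...` that runs along one edge per time `1 / m`. -/
def interpE (e : ℂ → ℂ → ℝ → ℂ) (m : ℝ) (w : ℕ → ℂ) (t : ℝ) : ℂ :=
  e (w ⌊m * t⌋₊) (w (⌊m * t⌋₊ + 1)) (m * t - ⌊m * t⌋₊)

/-- `ψ` is a Moebius map without pole on `closure O` that maps `O` onto itself. -/
def IsAut (O : Set ℂ) (ψ : ℂ → ℂ) : Prop :=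
  ∃ a b c e : ℂ, (∀ z ∈ closure O, c * z + e ≠ 0) ∧ (∀ z, ψ z = (a * z + b) / (c * z + e)) ∧
    BijOn ψ O O

end Pool.Agent.Lib.MP_0d9445_pr
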