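import Pool.Agent.Lib.MP_0d9445_pr.Bd.HalfU
import Pool.Agent.Lib.MP_0d9445_pr.Fin.Stmt

/-! Uniform convergence on the whole time axis: other drawings of the edges, affine maps, tails. -/

noncomputable section

open MeasureTheory ProbabilityTheory Set Filter Topology
open scoped NNReal ENNReal Classical

namespace Pool.Agent.Lib.MP_0d9445_pr.Bd

open BM Cell Walk

namespace Unif

theorem exp_lin (St : ℂ → Set ℂ) (c : ℝ) (L : ℕ) : ∀ (x : ℂ) (F G : (ℕ → ℂ) → ℝ),
    walkExp St L x (fun w => F w + c * G w) = walkExp St L x F + c * walkExp St L x G := by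
  induction L with
  | zero => exact fun _ _ _ => rfl
  | succ L ih =>
    intro x F G
    by_cases h : (St x).Finite ∧ (St x).Nonempty
    · simp only [exp_succ, finsum_mem_eq_finite_toFinset_sum _ h.1, ih, Finset.sum_add_distrib,
        ← Finset.mul_sum]
      ring
    · simp only [exp_junk h, mul_zero, add_zero]

theorem mono_V {St : ℂ → Set ℂ} {V : Set ℂ} (hV : ∀ y ∈ V, St y ⊆ V) (L : ℕ) :
    ∀ x ∈ V, ∀ F G : (ℕ → ℂ) → ℝ,
      (∀ w, (∀ i, w i ∈ V) → (∀ k, L ≤ k → w k = w L) → F w ≤ G w) →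
      walkExp St L x F ≤ walkExp St L x G := by
  induction L with
  | zero => exact fun x hx F G h => h _ (fun _ => hx) fun _ _ => rfl
  | succ L ih =>
    intro x hx F G h
    by_cases hs : (St x).Finite ∧ (St x).Nonempty
    · rw [exp_succ, exp_succ, finsum_mem_eq_finite_toFinset_sum _ hs.1,
        finsum_mem_eq_finite_toFinset_sum _ hs.1]
      refine mul_le_mul_of_nonneg_left (Finset.sum_le_sum fun y hy =>
        ih y (hV x hx (hs.1.mem_toFinset.1 hy)) _ _ fun w a b => h _ (fun i => ?_) fun k hk => ?_)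
        (by positivity)
      · cases i with
        | zero => exact hx
        | succ i => exact a i
      · obtain ⟨k, rfl⟩ := Nat.exists_eq_add_of_le' (Nat.le_add_left 1 L |>.trans hk)
        exact b k (by omega)
    · rw [exp_junk hs, exp_junk hs]

/-- Sets that recede from almost every value of the limit have small weight. -/
theorem small {X Ω : Type} [PseudoMetricSpace X] [MeasurableSpace Ω] {P : Measure Ω}
    [IsProbabilityMeasure P] (Z : Ω → X) {A : ℕ → Set X} {r : ℕ → ℝ} (hr : ∀ k, 0 < r k)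
    (hA : ∀ p, ∀ᶠ k in atTop, p ∉ Metric.thickening (r k) (A k)) {ε : ℝ} (hε : 0 < ε) :
    ∃ k, ∀ En : ℕ → (X → ℝ) → ℝ, (∀ n F G, (∀ w, F w ≤ G w) → En n F ≤ En n G) →
      (∀ F : BoundedContinuousFunction X ℝ,
        Tendsto (fun n => En n F) atTop (𝓝 (∫ ω, F (Z ω) ∂P))) →
      ∀ᶠ n in atTop, En n (fun p => if p ∈ A k then 1 else 0) ≤ ε := by
  let Θ : ℕ → BoundedContinuousFunction X ℝ := fun k =>
    (thickenedIndicator (hr k) (A k)).comp _ NNReal.isometry_coe.lipschitz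
  have hΘ : ∀ k p, Θ k p = thickenedIndicator (hr k) (A k) p := fun _ _ => rfl
  obtain ⟨k, hk⟩ : ∃ k, ∫ ω, Θ k (Z ω) ∂P < ε := by
    by_cases hm : ∀ k, AEStronglyMeasurable (fun ω => Θ k (Z ω)) P
    · have := tendsto_integral_of_dominated_convergence (f := fun _ => (0 : ℝ)) (fun _ => 1) hm
        (integrable_const _) (fun k => Eventually.of_forall fun ω => by
          rw [hΘ, NNReal.norm_eq]
          exact thickenedIndicator_le_one _ _ _)
        (Eventually.of_forall fun ω => tendsto_const_nhds.congr' ((hA (Z ω)).mono fun k hk => by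
          simp only [hΘ, thickenedIndicator_zero _ _ hk, NNReal.coe_zero]))
      rw [integral_zero] at this
      exact (this.eventually (gt_mem_nhds hε)).exists
    · obtain ⟨k, hk⟩ := not_forall.1 hm
      exact ⟨k, by rwa [integral_non_aestronglyMeasurable hk]⟩
  refine ⟨k, fun En hE h => ((h (Θ k)).eventually (gt_mem_nhds hk)).mono fun n hn =>
    (hE n _ _ fun p => ?_).trans hn.le⟩
  split_ifs with e
  · rw [hΘ, thickenedIndicator_one _ _ e, NNReal.coe_one]
  · exact NNReal.coe_nonneg _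

theorem toB_apply {T : ℝ} (hT : 0 ≤ T) {y : ℝ → ℂ} (hy : Continuous fun t : Icc (0 : ℝ) T => y t)
    (hc : ∀ t, T ≤ t → y t = y T) (t : ℝ≥0) : toB y t = y t := by
  rw [← ext_toC hT hy hc]
  show toC T y (projIcc 0 T hT t) = y t
  rw [coe_toC hy]
  rcases le_total (t : ℝ) T with h | h
  · rw [projIcc_of_mem hT (x := (t : ℝ)) ⟨t.2, h⟩]
  · rw [projIcc_of_right_le hT h, hc t h]

theorem toB_interp {m : ℝ} (hm : 0 < m) {w : ℕ → ℂ} {i : ℕ} (hw : ∀ k, i ≤ k → w k = w i)
    (t : ℝ≥0) : toB (interp m w) t = interp m w t := by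
  have hi : (i : ℝ) ≤ m * (i / m) := (mul_div_cancel₀ _ hm.ne').ge
  exact toB_apply (T := i / m) (by positivity) (cont_interp hm _ w) (fun t ht => by
    rw [interp_const hw hi, interp_const hw (hi.trans (mul_le_mul_of_nonneg_left ht hm.le))]) t

theorem toB_node {m : ℝ} (hm : 0 < m) {w : ℕ → ℂ} {i : ℕ} (hw : ∀ k, i ≤ k → w k = w i)
    (k : ℕ) : toB (interp m w) (Real.toNNReal (k / m)) = w k := by
  rw [toB_interp hm hw, Real.coe_toNNReal _ (by positivity), (ip_ok m w hm).2.1 k]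

theorem uc_interp {m : ℝ} (hm : 0 < m) {w : ℕ → ℂ} {i : ℕ} (hw : ∀ k, i ≤ k → w k = w i) :
    UniformContinuous (toB (interp m w)) := by
  have hT : 0 ≤ (i : ℝ) / m := by positivity
  rw [← ext_interp hm hT hw (mul_div_cancel₀ _ hm.ne').ge]
  exact (CompactSpace.uniformContinuous_of_continuous (toC _ (interp m w)).continuous).comp
    ((LipschitzWith.projIcc hT).uniformContinuous.comp NNReal.isometry_coe.uniformContinuous)

theorem cont_piece {g : ℕ → ℝ → ℂ} (hg : ∀ k, ContinuousOn (g k) (Icc 0 1))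
    (h : ∀ k, g k 1 = g (k + 1) 0) : ContinuousOn (fun u : ℝ => g ⌊u⌋₊ (u - ⌊u⌋₊)) (Ici 0) := by
  have hl : LocallyFinite fun k : ℕ => Icc (k : ℝ) (k + 1) := fun x =>
    ⟨Iio (x + 1), Iio_mem_nhds (lt_add_one x), (finite_Iic ⌈x + 1⌉₊).subset
      fun k ⟨u, a, b⟩ => by exact_mod_cast (a.1.trans b.le).trans (Nat.le_ceil _)⟩
  refine (hl.continuousOn_iUnion (fun _ => isClosed_Icc) fun k => ?_).mono fun u hu =>
    mem_iUnion.2 ⟨⌊u⌋₊, Nat.floor_le hu, (Nat.lt_floor_add_one u).le⟩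
  refine ((hg k).comp (f := fun u : ℝ => u - k) (by fun_prop) fun u hu =>
    ⟨by linarith [hu.1], by linarith [hu.2]⟩).congr fun u hu => ?_
  rcases hu.2.eq_or_lt with e | e
  · have e1 : ⌊u⌋₊ = k + 1 := by rw [e, ← Nat.cast_succ, Nat.floor_natCast]
    simp only [Function.comp, e1]
    simp [e, h]
  · simp only [Function.comp, (Nat.floor_eq_iff ((Nat.cast_nonneg k).trans hu.1)).2 ⟨hu.1, e⟩]

variable {S V : Set ℂ} {d : Met} {e : ℂ → ℂ → ℝ → ℂ}

theorem edge_close (hS : IsClosed S) (hd : MetOn S d) (R : ℝ) {ε : ℝ} (hε : 0 < ε) :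
    ∃ δ > 0, δ ≤ ε ∧ ∀ V ⊆ S, ∀ e, IsEdges S d V e → ∀ x ∈ V, ∀ y ∈ V, ‖x‖ ≤ R → ‖y - x‖ < δ →
      ∀ s ∈ Icc (0 : ℝ) 1, ‖e x y s - x‖ ≤ ε := by
  have h1 : ∀ p : S, ∃ η > 0, ∀ x ∈ S, ∀ y : ℂ, ∀ u ∈ S, dist x p < η → dist y p < η →
      d (x, u) ≤ d (x, y) → dist u x ≤ ε := fun ⟨p, hp⟩ => by
    obtain ⟨δ, hδ, k1⟩ := hd.topo p hp _ (half_pos hε)
    have hc : Tendsto d (𝓝 (p, p)) (𝓝 0) := hd.self p hp ▸ d.continuous.tendsto (p, p)
    obtain ⟨η, hη, k2⟩ := Metric.tendsto_nhds_nhds.1 hc (δ / 2) (half_pos hδ)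
    have k3 : ∀ a b, dist a p < η → dist b p < η → d (a, b) < δ / 2 := fun a b ha hb => by
      have := k2 (x := (a, b)) (by rw [Prod.dist_eq]; exact max_lt ha hb)
      rw [dist_zero_right] at this
      exact (le_abs_self _).trans_lt this
    refine ⟨min η (ε / 2), by positivity, fun x hx y u hu a b c => ?_⟩
    rw [lt_min_iff] at a b
    have k4 := k1 u hu (by
      linarith [hd.tri p hp x hx u hu, k3 p x (by simpa using hη) a.1, k3 x y a.1 b.1])
    linarith [dist_triangle_left u x p, dist_comm x p, a.2]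
  choose η hη h1 using h1
  obtain ⟨δ, hδ, h2⟩ := lebesgue_number_lemma_of_metric
    (c := fun p : S => Metric.ball (p : ℂ) (η p)) ((isCompact_closedBall (0 : ℂ) R).inter_left hS) (fun _ => Metric.isOpen_ball)
    fun x hx => mem_iUnion.2 ⟨⟨x, hx.1⟩, Metric.mem_ball_self (hη _)⟩
  refine ⟨min δ ε, by positivity, min_le_right _ _, fun V hV e he x hx y hy a b s hs => ?_⟩
  rw [lt_min_iff] at b
  obtain ⟨p, hp⟩ := h2 x ⟨hV hx, mem_closedBall_zero_iff.2 a⟩
  rcases (he x hx y hy).2 s hs with c | c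
  · exact c.trans b.2.le
  · rw [← dist_eq_norm]
    exact h1 p x (hV hx) y _ ((he x hx y hy).1.maps hs) (hp (Metric.mem_ball_self hδ))
      (hp (by rw [Metric.mem_ball, dist_eq_norm]; exact b.1)) c

theorem frac_mem {u : ℝ} (hu : 0 ≤ u) : u - ⌊u⌋₊ ∈ Icc (0 : ℝ) 1 :=
  ⟨sub_nonneg.2 (Nat.floor_le hu), by linarith [Nat.lt_floor_add_one u]⟩

theorem toB_interpE (hS : IsClosed S) (hd : MetOn S d) (hV : V ⊆ S) (he : IsEdges S d V e) {m : ℝ}
    (hm : 0 < m) {w : ℕ → ℂ} (hwV : ∀ k, w k ∈ V) {i : ℕ} (hw : ∀ k, i ≤ k → w k = w i)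
    (t : ℝ≥0) : toB (interpE e m w) t = interpE e m w t := by
  have hi : (i : ℝ) ≤ m * (i / m) := (mul_div_cancel₀ _ hm.ne').ge
  have h1 : ∀ t, (i : ℝ) ≤ m * t → interpE e m w t = w i := fun t ht => by
    have h : i ≤ ⌊m * t⌋₊ := Nat.le_floor ht
    rw [interpE, hw _ h, hw _ (h.trans (Nat.le_succ _)), ← sub_eq_zero, ← norm_le_zero_iff]
    refine le_of_forall_pos_le_add fun ε hε => ?_
    obtain ⟨δ, hδ, -, k⟩ := edge_close hS hd ‖w i‖ hε
    simpa using k V hV e he _ (hwV i) _ (hwV i) le_rfl (by simpa using hδ) _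
      (frac_mem ((Nat.cast_nonneg i).trans ht))
  refine toB_apply (T := i / m) (by positivity) ?_ (fun t ht => by
    rw [h1 _ hi, h1 _ (hi.trans (mul_le_mul_of_nonneg_left ht hm.le))]) t
  exact (cont_piece (g := fun k => e (w k) (w (k + 1)))
    (fun k => (he _ (hwV _) _ (hwV _)).1.cont) fun k => by
      rw [(he _ (hwV _) _ (hwV _)).1.tgt, (he _ (hwV _) _ (hwV _)).1.src]).comp_continuous
    (f := fun t : Icc (0 : ℝ) (i / m) => m * t) (by fun_prop) fun t => mul_nonneg hm.le t.2.1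

/-- large paths and paths near which `F` oscillates -/
def osc (F : BoundedContinuousFunction ℝ≥0 ℂ → ℝ) (η : ℝ) (k : ℕ) :
    Set (BoundedContinuousFunction ℝ≥0 ℂ) :=
  {p | (k : ℝ) ≤ ‖p‖ ∨ ∃ q, dist q p ≤ 1 / (k + 1) ∧ η ≤ |F q - F p|}

theorem osc_away (F : BoundedContinuousFunction (BoundedContinuousFunction ℝ≥0 ℂ) ℝ) {η : ℝ}
    (hη : 0 < η) (p : BoundedContinuousFunction ℝ≥0 ℂ) :
    ∀ᶠ k : ℕ in atTop, p ∉ Metric.thickening (1 / (k + 1)) (osc F η k) := by
  obtain ⟨δ, hδ, a⟩ := Metric.continuousAt_iff.1 (F.continuous.continuousAt (x := p)) _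
    (half_pos hη)
  filter_upwards [tendsto_natCast_atTop_atTop.eventually_ge_atTop (‖p‖ + 1),
    tendsto_one_div_add_atTop_nhds_zero_nat.eventually (gt_mem_nhds (half_pos hδ))]
    with k b c hp
  obtain ⟨p', g | ⟨q, g1, g2⟩, i⟩ := Metric.mem_thickening_iff.1 hp
  · have : (1 : ℝ) / (k + 1) ≤ 1 := by
      rw [div_le_one (by positivity)]
      linarith [k.cast_nonneg (α := ℝ)]
    rw [dist_eq_norm] at i
    linarith [norm_le_norm_add_norm_sub p p']
  · rw [dist_comm] at i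
    have a1 := a (x := p') (by linarith)
    have a2 := a (x := q) (by linarith [dist_triangle q p' p])
    rw [← Real.dist_eq] at g2
    linarith [dist_triangle_right (F q) (F p') (F p)]

/-- uniformly continuous paths that move fast -/
def jump (δ : ℝ) (j : ℕ) : Set (BoundedContinuousFunction ℝ≥0 ℂ) :=
  {p | UniformContinuous p ∧ ∃ s t, dist s t ≤ 1 / (j + 1) ∧ δ ≤ dist (p s) (p t)}

theorem jump_away {δ : ℝ} (hδ : 0 < δ) (p : BoundedContinuousFunction ℝ≥0 ℂ) :
    ∀ᶠ j : ℕ in atTop, p ∉ Metric.thickening (δ / 8) (jump δ j) := by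
  by_contra hc
  obtain ⟨_, hp⟩ := (not_eventually.1 hc).exists
  obtain ⟨p₁, ⟨a, -⟩, b⟩ := Metric.mem_thickening_iff.1 (not_not.1 hp)
  obtain ⟨θ, hθ, a⟩ := Metric.uniformContinuous_iff.1 a _ (half_pos hδ)
  refine hc ((tendsto_one_div_add_atTop_nhds_zero_nat.eventually (gt_mem_nhds hθ)).mono
    fun j c hp => ?_)
  obtain ⟨q, ⟨-, s, t, g1, g2⟩, g3⟩ := Metric.mem_thickening_iff.1 hp
  have g4 : dist q p₁ ≤ δ / 4 := by linarith [dist_triangle_left q p₁ p]
  have g5 := a (g1.trans_lt c)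
  have g6 := (BoundedContinuousFunction.dist_coe_le_dist (f := q) (g := p₁) s).trans g4
  have g7 := (BoundedContinuousFunction.dist_coe_le_dist (f := q) (g := p₁) t).trans g4
  linarith [dist_triangle4_right (q s) (q t) (p₁ s) (p₁ t)]

/-- eventually constant paths that still move after time `k` -/
def late (η : ℝ) (k : ℕ) : Set (BoundedContinuousFunction ℝ≥0 ℂ) :=
  {p | (∃ σ, ∀ t, σ ≤ t → p t = p σ) ∧ ∃ s t : ℝ≥0, k ≤ s ∧ k ≤ t ∧ η ≤ dist (p s) (p t)}

theorem late_away {η : ℝ} (hη : 0 < η) (p : BoundedContinuousFunction ℝ≥0 ℂ) :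
    ∀ᶠ k : ℕ in atTop, p ∉ Metric.thickening (η / 8) (late η k) := by
  by_contra hc
  obtain ⟨_, hp⟩ := (not_eventually.1 hc).exists
  obtain ⟨p₁, ⟨⟨σ, a⟩, -⟩, b⟩ := Metric.mem_thickening_iff.1 (not_not.1 hp)
  refine hc ((tendsto_natCast_atTop_atTop.eventually_ge_atTop σ).mono fun k c hp => ?_)
  obtain ⟨q, ⟨-, s, t, g1, g2, g⟩, g3⟩ := Metric.mem_thickening_iff.1 hp
  have g4 : dist q p₁ ≤ η / 4 := by linarith [dist_triangle_left q p₁ p]
  have g6 := (BoundedContinuousFunction.dist_coe_le_dist (f := q) (g := p₁) s).trans g4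
  have g7 := (BoundedContinuousFunction.dist_coe_le_dist (f := q) (g := p₁) t).trans g4
  rw [a s (c.trans g1)] at g6
  rw [a t (c.trans g2)] at g7
  linarith [dist_triangle_right (q s) (q t) (p₁ σ)]

theorem exists_imp_of_exists (p : ℕ → Prop) : ∃ L, (∃ L, p L) → p L := by
  by_cases h : ∃ L, p L
  · exact h.imp fun _ a _ => a
  · exact ⟨0, fun a => absurd a h⟩

theorem grow (St : ℂ → Set ℂ) (L : ℕ) : ∀ N, L ≤ N → ∀ (x : ℂ) (Ψ G : (ℕ → ℂ) → ℝ),
    (∀ w, G w ≤ 1) → (∀ w, Ψ w + G (fun i => w (min i L)) ≤ 1) →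
      walkExp St N x Ψ + walkExp St L x G ≤ 1 := by
  induction L with
  | zero =>
    intro N _ x Ψ G hG h
    have h1 : walkExp St N x (fun w => 1 - G fun _ => w 0) ≤ 1 - G fun _ => x := by
      cases N with
      | zero => exact le_rfl
      | succ N =>
        exact (le_abs_self _).trans (walkbasics_ok.abs_le St (N + 1) x
          (fun _ => 1 - G fun _ => x) _ fun _ => (abs_of_nonneg (sub_nonneg.2 (hG _))).le)
    exact le_sub_iff_add_le.1 ((PgP3x.mono St N x _ _ fun w =>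
      le_sub_iff_add_le.2 (by simpa using h w)).trans h1)
  | succ L ih =>
    intro N hN x Ψ G hG h
    obtain ⟨N, rfl⟩ := Nat.exists_eq_add_of_le' (Nat.le_add_left 1 L |>.trans hN)
    by_cases hs : (St x).Finite ∧ (St x).Nonempty
    · have hp : (0 : ℝ) < (St x).ncard := by exact_mod_cast (ncard_pos hs.1).2 hs.2
      rw [exp_succ, exp_succ, finsum_mem_eq_finite_toFinset_sum _ hs.1,
        finsum_mem_eq_finite_toFinset_sum _ hs.1, ← mul_add,
        ← Finset.sum_add_distrib, inv_mul_le_iff₀ hp, mul_one, ncard_eq_toFinset_card _ hs.1]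
      refine (Finset.sum_le_card_nsmul _ _ 1 fun y _ => ?_).trans (by simp)
      refine ih N (by omega) y _ _ (fun _ => hG _) fun w => le_of_eq_of_le ?_ (h (consPath x w))
      congr 2
      funext i
      cases i with
      | zero => rfl
      | succ i => rw [Nat.succ_min_succ]; rfl
    · rw [exp_junk hs, exp_junk hs]
      norm_num

end Unif

open Unif

variable {Ω : Type} [MeasurableSpace Ω] {Q : Measure Ω} {X : ℝ → Ω → ℂ} {St : ℕ → ℂ → Set ℂ}
  {x : ℕ → ℂ} {m : ℕ → ℝ}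

/-- The edges may be drawn in another way. -/
theorem PathConvU.edges [IsProbabilityMeasure Q] {S : Set ℂ} {d : Met} {V : ℕ → Set ℂ}
    {e : ℕ → ℂ → ℂ → ℝ → ℂ} (h : PathConvU Q X St x m) (hm : Tendsto m atTop atTop)
    (hS : IsClosed S) (hd : MetOn S d) (hVS : ∀ n, V n ⊆ S) (hV : ∀ n, ∀ y ∈ V n, St n y ⊆ V n)
    (hx : ∀ᶠ n in atTop, x n ∈ V n) (he : ∀ n, IsEdges S d (V n) (e n)) :
    ∀ N : ℕ → ℕ, Tendsto (fun n => (N n : ℝ) / m n) atTop atTop →
      ∀ F : BoundedContinuousFunction (BoundedContinuousFunction ℝ≥0 ℂ) ℝ,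
        Tendsto (fun n => walkExp (St n) (N n) (x n) fun w => F (toB (interpE (e n) (m n) w)))
          atTop (𝓝 (∫ ω, F (toB fun t => X t ω) ∂Q)) := by
  intro N hN F
  have hk1 : ∀ k : ℕ, (0 : ℝ) < 1 / (k + 1) := fun k => by positivity
  let En : ℕ → (BoundedContinuousFunction ℝ≥0 ℂ → ℝ) → ℝ := fun n G =>
    walkExp (St n) (N n) (x n) fun w => G (toB (interp (m n) w))
  have hE : ∀ n F G, (∀ w, F w ≤ G w) → En n F ≤ En n G := fun n F G h =>
    PgP3x.mono _ _ _ _ _ fun w => h _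
  refine (h N hN F).congr_dist (Metric.tendsto_nhds.2 fun ε hε => ?_)
  obtain ⟨η, hη, hηε⟩ : ∃ η > 0, η + 4 * ‖F‖ * η < ε := ⟨ε / 2 / (1 + 4 * ‖F‖), by positivity, by
    rw [← one_add_mul, mul_div_cancel₀ _ (by positivity)]
    exact half_lt_self hε⟩
  obtain ⟨k, h1⟩ := small (P := Q) (fun ω => toB fun t => X t ω) hk1 (osc_away F hη) hη
  obtain ⟨δ, hδ, hδk, hcl⟩ := edge_close hS hd k (half_pos (hk1 k))
  obtain ⟨j, h2⟩ := small (P := Q) (fun ω => toB fun t => X t ω) (fun _ => by positivity)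
    (jump_away hδ) hη
  filter_upwards [h1 En hE (h N hN), h2 En hE (h N hN), hx, hm.eventually_ge_atTop (j + 1)] with n a1 a2 a3 a4
  have hm0 : 0 < m n := lt_of_lt_of_le (by positivity) a4
  set I₁ : BoundedContinuousFunction ℝ≥0 ℂ → ℝ := fun p => if p ∈ osc F η k then 1 else 0 with hI₁
  set I₂ : BoundedContinuousFunction ℝ≥0 ℂ → ℝ := fun p => if p ∈ jump δ j then 1 else 0 with hI₂
  have key : ∀ w, (∀ i, w i ∈ V n) → (∀ i, N n ≤ i → w i = w (N n)) →
      |F (toB (interpE (e n) (m n) w)) - F (toB (interp (m n) w))| ≤ η * 1 +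
        2 * ‖F‖ * I₁ (toB (interp (m n) w)) + 2 * ‖F‖ * I₂ (toB (interp (m n) w)) := by
    intro w b1 b2
    have b3 := (abs_sub _ _).trans (add_le_add (F.norm_coe_le_norm (toB (interpE (e n) (m n) w)))
      (F.norm_coe_le_norm (toB (interp (m n) w))))
    have b4 := norm_nonneg F
    simp only [hI₁, hI₂]
    split_ifs with c1 c2 c2
    · linarith
    · linarith
    · linarith
    simp only [osc, jump, mem_ofPred_eq, not_or, not_exists, not_and, not_le] at c1 c2
    rw [mul_one, mul_zero, add_zero, add_zero]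
    refine (c1.2 _ ((BoundedContinuousFunction.dist_le (hk1 k).le).2 fun t => ?_)).le
    have h0 : 0 ≤ m n * t := mul_nonneg hm0.le t.2
    have c3 : ‖w (⌊m n * t⌋₊ + 1) - w ⌊m n * t⌋₊‖ < δ := by
      rw [← toB_node hm0 b2, ← toB_node hm0 b2 ⌊m n * t⌋₊, ← dist_eq_norm]
      refine c2 (uc_interp hm0 b2) _ _ ?_
      rw [NNReal.dist_eq, Real.coe_toNNReal _ (by positivity),
        Real.coe_toNNReal _ (by positivity), ← sub_div, Nat.cast_succ,
        add_sub_cancel_left, abs_of_pos (one_div_pos.2 hm0)]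
      exact one_div_le_one_div_of_le (by positivity) a4
    have c4 := hcl _ (hVS n) _ (he n) _ (b1 _) _ (b1 _) (by
      rw [← toB_node hm0 b2]
      exact (BoundedContinuousFunction.norm_coe_le_norm _ _).trans c1.1.le) c3 _ (frac_mem h0)
    have c5 := (ip_ok (m n) w hm0).2.2 t t.2
    rw [toB_interpE hS hd (hVS n) (he n) hm0 b1 b2, toB_interp hm0 b2]
    refine (dist_triangle_right _ _ (w ⌊m n * t⌋₊)).trans ?_
    rw [dist_eq_norm, dist_eq_norm, interpE]
    linarith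
  have bd : ∀ G G' : (ℕ → ℂ) → ℝ, (∀ w, (∀ i, w i ∈ V n) → (∀ i, N n ≤ i → w i = w (N n)) →
      G w - G' w ≤ η * 1 + 2 * ‖F‖ * I₁ (toB (interp (m n) w)) +
        2 * ‖F‖ * I₂ (toB (interp (m n) w))) →
      walkExp (St n) (N n) (x n) G - walkExp (St n) (N n) (x n) G' < ε := fun G G' hG => by
    have b1 := mono_V (hV n) (N n) _ a3 G (fun w => G' w + η * 1 +
      2 * ‖F‖ * I₁ (toB (interp (m n) w)) + 2 * ‖F‖ * I₂ (toB (interp (m n) w)))
      fun w a b => by linarith [hG w a b]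
    rw [exp_lin, exp_lin, exp_lin _ _ _ _ _ fun _ => 1] at b1
    have b2 := mul_le_mul_of_nonneg_left ((le_abs_self _).trans
      (walkbasics_ok.abs_le (St n) (N n) (x n) (fun _ => 1) 1 fun _ => by simp)) hη.le
    have b3 := mul_le_mul_of_nonneg_left a1 (show 0 ≤ 2 * ‖F‖ by positivity)
    have b4 := mul_le_mul_of_nonneg_left a2 (show 0 ≤ 2 * ‖F‖ by positivity)
    simp only [En] at b3 b4
    linarith
  rw [Real.dist_eq, sub_zero, abs_of_nonneg dist_nonneg, Real.dist_eq, abs_sub_lt_iff]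
  exact ⟨bd _ _ fun w a b => (le_abs_self _).trans ((abs_sub_comm _ _).le.trans (key w a b)),
    bd _ _ fun w a b => (le_abs_self _).trans (key w a b)⟩

/-- After a late time the walk hardly moves, whatever the horizon. -/
theorem PathConvU.tail [IsProbabilityMeasure Q] (h : PathConvU Q X St x m)
    (hm : Tendsto m atTop atTop) {η : ℝ} (hη : 0 < η) : ∃ T : ℝ, ∀ᶠ n in atTop, ∀ L,
      (walkExp (St n) L (x n) fun w =>
        if ∃ i j : ℕ, m n * T ≤ i ∧ i ≤ j ∧ η < ‖w i - w j‖ then 1 else 0) ≤ η := by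
  obtain ⟨k, hk⟩ := small (P := Q) (fun ω => toB fun t => X t ω) (fun _ => by positivity)
    (late_away hη) (half_pos hη)
  refine ⟨k, by_contra fun hc => ?_⟩
  obtain ⟨L, hL⟩ := Classical.skolem.1 fun n => exists_imp_of_exists (fun L => η <
    walkExp (St n) L (x n) fun w =>
      if ∃ i j : ℕ, m n * k ≤ i ∧ i ≤ j ∧ η < ‖w i - w j‖ then 1 else 0)
  simp only [not_eventually, not_forall, not_le] at hc
  replace hc := hc.mono hL
  have hN : Tendsto (fun n => ((L n + ⌈m n * m n⌉₊ : ℕ) : ℝ) / m n) atTop atTop := by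
    refine tendsto_atTop_mono' atTop ?_ hm
    filter_upwards [hm.eventually_gt_atTop 0] with n hn
    rw [le_div_iff₀ hn, Nat.cast_add]
    linarith [Nat.le_ceil (m n * m n), (L n).cast_nonneg (α := ℝ)]
  have h1 := hk (fun n G => walkExp (St n) (L n + ⌈m n * m n⌉₊) (x n)
    fun w => G (toB (interp (m n) w))) (fun n F G h => PgP3x.mono _ _ _ _ _ fun w => h _) (h _ hN)
  have h2 := h _ hN 1
  simp only [BoundedContinuousFunction.coe_one, Pi.one_apply, integral_const, probReal_univ,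
    smul_eq_mul, mul_one] at h2
  obtain ⟨n, a, a1, a2, hm0⟩ := (hc.and_eventually (h1.and
    ((h2.eventually (lt_mem_nhds (sub_lt_self 1 (half_pos hη)))).and
      (hm.eventually_gt_atTop 0)))).exists
  set B : (ℕ → ℂ) → ℝ := fun w =>
    if ∃ i j : ℕ, m n * k ≤ i ∧ i ≤ j ∧ η < ‖w i - w j‖ then 1 else 0 with hB
  have b1 := grow (St n) (L n) _ (Nat.le_add_right _ ⌈m n * m n⌉₊) (x n) (fun w => 1 + -1 * B w) B
    (fun w => by simp only [hB]; split_ifs <;> norm_num) fun w => by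
      simp only [hB]
      split_ifs with c1 c2 c2 <;> try norm_num
      obtain ⟨i, j, c3, c4, c5⟩ := c2
      rcases le_total (L n) i with e | e
      · rw [min_eq_right e, min_eq_right (e.trans c4), sub_self, norm_zero] at c5
        exact c5.not_gt hη
      · exact c1 ⟨i, _, c3, le_min c4 e, by rwa [min_eq_left e] at c5⟩
  rw [exp_lin _ _ _ _ fun _ => 1] at b1
  have b2 := mono_V (St := St n) (V := univ) (fun _ _ => subset_univ _) (L n + ⌈m n * m n⌉₊) (x n)
    (mem_univ _) B (fun w => if toB (interp (m n) w) ∈ late η k then 1 else 0) fun w _ hw => by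
      simp only [hB]
      split_ifs with c1 c2 c2 <;> try norm_num
      obtain ⟨i, j, c3, c4, c5⟩ := c1
      have c6 : ∀ i : ℕ, m n * k ≤ i → (k : ℝ≥0) ≤ Real.toNNReal (i / m n) := fun i hi =>
        (Real.le_toNNReal_iff_coe_le (by positivity)).2 (by
          rwa [NNReal.coe_natCast, le_div_iff₀ hm0, mul_comm])
      refine c2 ⟨⟨_, fun t ht => Eq.trans ?_ (toB_node hm0 hw (L n + ⌈m n * m n⌉₊)).symm⟩, _, _,
        c6 i c3, c6 j (c3.trans (Nat.cast_le.2 c4)), ?_⟩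
      · rw [toB_interp hm0 hw, interp_const hw]
        rwa [Real.toNNReal_le_iff_le_coe, div_le_iff₀' hm0] at ht
      · rw [toB_node hm0 hw, toB_node hm0 hw, dist_eq_norm]
        exact c5.le
  linarith

theorem Unif.toB_aff {a b : ℂ} (ha : a ≠ 0) {y : ℝ → ℂ}
    (h : b = 0 ∨ ∃ g : BoundedContinuousFunction ℝ≥0 ℂ, ∀ t, g t = y t) :
    toB (fun t => a * y t + b) = a • toB y + BoundedContinuousFunction.const _ b := by
  by_cases hg : ∃ g : BoundedContinuousFunction ℝ≥0 ℂ, ∀ t, g t = y t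
  · obtain ⟨g, hg⟩ := hg
    rw [toB_eq hg]
    exact toB_eq fun t => by simp [hg]
  · obtain rfl := h.resolve_right hg
    rw [toB, toB, dif_neg hg, dif_neg fun ⟨g, e⟩ => hg ⟨a⁻¹ • g, fun t => by simp [e, ha]⟩]
    ext t
    simp

/-- Covariance under an affine map. -/
theorem PathConvU.affine {Ω' : Type} [MeasurableSpace Ω'] {Q' : Measure Ω'} {X' : ℝ → Ω' → ℂ}
    {St' : ℕ → ℂ → Set ℂ} {V : ℕ → Set ℂ} {a b : ℂ} (h : PathConvU Q X St x m) (ha : a ≠ 0)
    (hm : ∀ᶠ n in atTop, 0 < m n) (hx : ∀ᶠ n in atTop, x n ∈ V n)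
    (hV : ∀ n, ∀ y ∈ V n, St n y ⊆ V n ∧ St' n (a * y + b) = (fun z => a * z + b) '' St n y)
    (hI : ∀ G : (ℝ → ℂ) → ℝ, ∫ ω, G (fun t => X' t ω) ∂Q' = ∫ ω, G (fun t => a * X t ω + b) ∂Q)
    (hb : b = 0 ∨ ∀ᵐ ω ∂Q, Continuous (fun t => X t ω) ∧ ∃ σ, ∀ t, σ ≤ t → X t ω = X σ ω) :
    PathConvU Q' X' St' (fun n => a * x n + b) m := by
  intro N hN F
  have h1 := h N hN (F.compContinuous
    ⟨fun p => a • p + BoundedContinuousFunction.const _ b, by fun_prop⟩)
  have h2 : ∀ᵐ ω ∂Q, b = 0 ∨ ∃ g : BoundedContinuousFunction ℝ≥0 ℂ, ∀ t, g t = X t ω := by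
    rcases hb with e | e
    · exact Eventually.of_forall fun _ => Or.inl e
    · filter_upwards [e] with ω ⟨c, σ, e⟩
      exact Or.inr ⟨_, toB_apply (y := fun t => X t ω) (le_max_right σ 0)
        (c.comp continuous_subtype_val) fun t ht =>
        (e t ((le_max_left _ _).trans ht)).trans (e _ (le_max_left _ _)).symm⟩
  rw [hI fun y => F (toB y), integral_congr_ae (h2.mono fun ω e => congrArg F (toB_aff ha e))]
  refine h1.congr' ?_
  filter_upwards [hm, hx] with n c e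
  rw [MapW_of (St n) (St' n) (V n) (fun z => a * z + b) (N n) (x n) _
    (fun _ _ _ _ e => mul_left_cancel₀ ha (add_right_cancel e)) e (hV n)]
  refine exp_congr _ _ _ _ _ fun w hw => congrArg F ?_
  refine (toB_aff ha (Or.inr ⟨_, toB_interp c hw⟩)).symm.trans (congrArg toB (funext fun t => ?_))
  simp only [interp]
  ring

end Pool.Agent.Lib.MP_0d9445_pr.Bd
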