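import Pool.Agent.Lib.MP_0d9445_pr.Fin.Mob
import Pool.Agent.Lib.MP_0d9445_pr.Fin.Aff
import Pool.Agent.Lib.MP_0d9445_pr.Fin.UnifE

/-! The five surfaces in every embedding. -/

open MeasureTheory ProbabilityTheory Set Filter Topology Real LQ.Met
open scoped NNReal ENNReal

noncomputable section

namespace Pool.Agent.Lib.MP_0d9445_pr.Fin

open CR PPP Walk Cell BM AS Bd

section Det

variable {O : Set ℂ} {d d' : Met} {μ : Measure ℂ} {Y : ℕ → Set ℂ} {τ : ℕ → ℝ} {a : ℂ}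

theorem OutU.scale (ha : a ≠ 0) (hτ : Tendsto τ atTop atTop) (hY : ∀ n, Y n ⊆ closure O)
    (hd : ∀ x ∈ closure O, ∀ y ∈ closure O, d' (a * x + 0, a * y + 0) = d (x, y))
    (h : OutU O d μ Y τ) : OutU ((fun z => a * z + 0) '' O) d' (μ.map fun z => a * z + 0)
      (fun n => (fun z => a * z + 0) '' Y n) τ := by
  rintro W hW B hB _ ⟨z, hz, rfl⟩ y' x' hy hx
  have hi : Function.Injective fun z => a * z + 0 := (aff ha 0).injective
  obtain ⟨y, rfl⟩ : ∃ y : ℕ → ℂ, y' = fun n => a * y n + 0 :=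
    ⟨fun n => (aff ha 0).symm (y' n), funext fun n => ((aff ha 0).apply_symm_apply _).symm⟩
  obtain ⟨x, rfl⟩ : ∃ x : ℕ → ℂ, x' = fun n => a * x n + 0 :=
    ⟨fun n => (aff ha 0).symm (x' n), funext fun n => ((aff ha 0).apply_symm_apply _).symm⟩
  rw [← image_closure_aff ha] at hx ⊢
  have hx' : ∀ᶠ n in atTop, x n ∈ Y n ∧ y n ∈ (vorOn (closure O) d (Y n)).H (x n) := by
    filter_upwards [hx] with n ⟨k1, k2⟩
    have k3 := hi.mem_set_image.1 k1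
    rw [cell_map (ψ := fun z => a * z + 0) (hY n) hd k3] at k2
    exact ⟨k3, hi.mem_set_image.1 k2⟩
  refine (h W hW _ (pcaf_pull hW ha hB) z hz y x ((aff ha 0).isInducing.tendsto_nhds_iff.2 hy)
    hx').affine ha (hτ.eventually_gt_atTop 0) (hx'.mono fun _ k => k.1)
    (fun n p hp => step_map hi (hY n) hd hp) (fun G => ?_) (Or.inl rfl)
  rw [← map_phi hW ha 0 z]
  exact (integral_map_equiv (phiE ha 0) _).trans (integral_congr_ae (.of_forall fun ω =>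
    congrArg G (funext (lbm_phi ha B ω))))

/-- what is proved for one realisation in one embedding -/
def Out2 (O : Set ℂ) (d : Met) (μ : Measure ℂ) (Y : ℕ → Set ℂ) (τ : ℕ → ℝ) : Prop :=
  MetOn (closure O) d ∧ (∀ n, Y n ⊆ closure O) ∧ Tendsto τ atTop atTop ∧
  (∀ W, IsWiener W → ∃ B, PCAF W μ B) ∧
  ∀ W : Measure Path, IsWiener W → ∀ B, PCAF W μ B →
    ∀ z ∈ O, ∀ y x : ℕ → ℂ, Tendsto y atTop (𝓝 z) →
      (∀ᶠ n in atTop, x n ∈ Y n ∧ y n ∈ (vorOn (closure O) d (Y n)).H (x n)) →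
      PathConv (Px W z) (fun t b => lbmPath b (B b) O t)
        (fun n => (vorOn (closure O) d (Y n)).step O) x τ ∧
      (O ≠ univ → PathConvU (Px W z) (fun t b => lbmPath b (B b) O t)
        (fun n => (vorOn (closure O) d (Y n)).step O) x τ)

/-- what is proved for one realisation in every embedding -/
def OutA (O : Set ℂ) (d : Met) (μ : Measure ℂ) (Y : ℕ → Set ℂ) (τ : ℕ → ℝ) : Prop :=
  ∀ ψ, IsAut O ψ → ∀ d' : Met, (∀ x ∈ closure O, ∀ y ∈ closure O, d' (ψ x, ψ y) = d (x, y)) →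
    Out2 O d' (μ.map ψ) (fun n => ψ '' Y n) τ

theorem outA_univ (hd : MetOn (closure univ) d) (hτ : Tendsto τ atTop atTop) (hc : Cont univ μ)
    (hx : ∀ W, IsWiener W → ∃ B, PCAF W μ B) (ho : Out univ d μ Y τ) : OutA univ d μ Y τ := by
  intro ψ hψ d' e
  obtain ⟨a, b, h0, rfl⟩ := aff_of_aut (Or.inl rfl) hψ
  have hb : (fun z => a * z + b) '' univ = univ :=
    image_univ.trans (aff h0 b).surjective.range_eq
  have := ho.affine h0 (Or.inr hc) (fun n => by simp) e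
  rw [hb] at this
  exact ⟨metOn_push hd (by fun_prop) (by rw [image_closure_aff h0, hb]) e, fun n => by simp, hτ,
    exists_aff h0 b hx, fun W hW B hB z hz y x hy hx =>
      ⟨this W hW B hB z hz y x hy hx, fun k => absurd rfl k⟩⟩

theorem outA_bil (hO : O = UH ∨ O = Metric.ball 0 1) (hd : MetOn (closure O) d)
    (hμ : Ex.Loc μ O) (hY : ∀ n, Y n ⊆ O) (hτ : Tendsto τ atTop atTop)
    (ho : ∀ ψ k O', Bil ψ k O O' → ∀ d' : Met,
      (∀ x ∈ closure O, ∀ y ∈ closure O, d' (ψ x, ψ y) = d (x, y)) →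
      Out O' d' (μ.map ψ) (fun n => ψ '' Y n) τ ∧ OutU O' d' (μ.map ψ) (fun n => ψ '' Y n) τ) :
    OutA O d μ Y τ := by
  intro ψ hψ d' e
  have hx := hμ.exists_aut hψ
  obtain ⟨a, φ, k, O', ha, B, rfl⟩ := exists_bil hO hψ
  obtain ⟨_, _, _, _, -, -, hb⟩ := hψ
  have h1 : (fun z => a * z + 0) '' O' = O := by rw [← B.image, ← image_comp, hb.image_eq]
  have h2 : ((fun z => a * z + 0) ∘ φ) '' closure O = closure O := by
    rw [image_comp, B.image', image_closure_aff ha, h1]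
  have h3 : ∀ n, φ '' Y n ⊆ closure O' := fun n =>
    B.image' ▸ image_mono ((hY n).trans subset_closure)
  obtain ⟨k1, k2⟩ := ho φ k O' B (d'.comp ⟨fun p => (a * p.1 + 0, a * p.2 + 0), by fun_prop⟩) e
  have k3 := k1.affine (d' := d') ha (Or.inl rfl) h3 fun _ _ _ _ => rfl
  have k4 := k2.scale (d' := d') ha hτ h3 fun _ _ _ _ => rfl
  simp only [h1, Measure.map_map (measurable_aff a 0) B.meas, ← image_comp] at k3 k4
  exact ⟨metOn_push hd ((by fun_prop : Continuous fun z => a * z + 0).comp_continuousOn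
    B.lip.continuousOn) h2 e, fun n => h2 ▸ image_mono ((hY n).trans subset_closure), hτ, hx,
    fun W hW A hA z hz y x hy hx => ⟨k3 W hW A hA z hz y x hy hx,
      fun _ => k4 W hW A hA z hz y x hy hx⟩⟩

end Det

variable {Ω : Type} [MeasurableSpace Ω] {M : Model} {P : Measure Ω} {Z O E : Set ℂ}
  {Y : ℝ≥0 → Ω → Set ℂ} {A κ : ℝ → ℝ} {χ χi : ℂ → ℂ}
  {h : Ω → Field} {f : Ω → ℂ → ℝ} {d : Ω → Met} {m : Ω → Measure ℂ}

theorem plane_aut [IsProbabilityMeasure P] (F : M.All) (R : RefOK M) (hL : LocalLaw M A κ)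
    (hc : IsCone M.γ M.Q P h f ∧ Z = {0} ∨ IsSphere M.γ M.Q M.μ P h f ∧ Z = {0, 1})
    (hS : IsSurf M.γ M.ξ M.D M.μ Z P h f d m) (hY : ∀ l, IsPPP P d m l (Y l))
    {l : ℕ → ℝ≥0} (hl : Tendsto l atTop atTop) : ∃ φ : ℕ → ℕ, StrictMono φ ∧ ∀ᵐ ω ∂P,
      OutA univ (d ω) (m ω) (fun n => Y (l (φ n)) ω) fun n => tau M.γ A κ (l (φ n)) := by
  obtain ⟨N, h0⟩ : ∃ N, Surf M P univ Zᶜ N (fun ω => (d ω, m ω)) Y := by
    rcases hc with ⟨hc, rfl⟩ | ⟨hc, rfl⟩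
    · exact ⟨_, (cone_surf F R hc hS hY).1⟩
    · exact ⟨_, (sphere_surf F R hc hS hY).1⟩
  obtain ⟨s, hs, h1⟩ := Tip.env_univ micro_ok F R hL hc hS hY h0 hl
  obtain ⟨ω₀, -, h2⟩ := h1.exists
  have hl' := hl.comp hs.tendsto_atTop
  have h3 := (rate_top h2 isOpen_univ (mem_univ 0)).congr' (tau_eq hl' M.γ A κ)
  obtain ⟨φ, hφ, hE⟩ := plane_out F R hL hc hS hY hl'
  refine ⟨s ∘ φ, hs.comp hφ, ?_⟩
  filter_upwards [hE, hS.length, ae_cont_plane F R hc hS hY] with ω e ⟨hd, _⟩ k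
  exact outA_univ ⟨fun x _ => hd.self x, fun x _ y _ => hd.symm x y,
    fun x _ y _ z _ => hd.tri x y z, fun x _ ε hε => (hd.topo x ε hε).imp fun _ a =>
      ⟨a.1, fun y _ => a.2 y⟩⟩ (h3.comp hφ.tendsto_atTop) k e.1 e.2

theorem pack_aut (F : M.All) (R : RefOK M) (hL : LocalLaw M A κ) {c : Chart χ χi O E}
    (hO : O = UH ∨ O = Metric.ball 0 1) (hp : Fx.Pack M c P d m) (hY : ∀ l, IsPPP P d m l (Y l))
    {l : ℕ → ℝ≥0} (hl : Tendsto l atTop atTop) : ∃ φ : ℕ → ℕ, StrictMono φ ∧ ∀ᵐ ω ∂P,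
      OutA O (d ω) (m ω) (fun n => Y (l (φ n)) ω) fun n => tau M.γ A κ (l (φ n)) :=
  (conv_bil F R hL hp hY hl).imp fun _ k => ⟨k.1, k.2.mono fun _ ⟨k1, k2, k3, k4, k5⟩ =>
    outA_bil hO k1 k2 k3 k4 k5⟩

theorem main_aut (M : Model) : ∃ τ : ℝ≥0 → ℝ, (∀ l, 0 < τ l) ∧
    ∀ (Ω : Type) [MeasurableSpace Ω] (P : Measure Ω) [IsProbabilityMeasure P]
      (h : Ω → Field) (f : Ω → ℂ → ℝ) (O : Set ℂ) (d : Ω → Met) (m : Ω → Measure ℂ)
      (Y : ℝ≥0 → Ω → Set ℂ),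
      (IsCone M.γ M.Q P h f ∧ O = univ ∧ IsSurf M.γ M.ξ M.D M.μ {0} P h f d m ∨
        IsSphere M.γ M.Q M.μ P h f ∧ O = univ ∧ IsSurf M.γ M.ξ M.D M.μ {0, 1} P h f d m ∨
        IsWedge M.γ M.Q P h f ∧ O = UH ∧ IsSurfVia M.γ M.ξ M.D M.μ id O P h f d m ∨
        (∃ ℓ > 0, IsDisk M.γ M.Q ℓ P h f) ∧ O = Metric.ball 0 1 ∧
          IsSurfVia M.γ M.ξ M.D M.μ cayley O P h f d m ∨
        (∃ ℓ > 0, ∃ a > 0, IsDiskArea M.γ M.ξ M.Q M.D M.μ ℓ a P d m) ∧ O = Metric.ball 0 1) →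
      (∀ l, IsPPP P d m l (Y l)) →
      ∀ l : ℕ → ℝ≥0, Tendsto l atTop atTop → ∃ φ : ℕ → ℕ, StrictMono φ ∧ ∀ᵐ ω ∂P,
        ∀ ψ, IsAut O ψ → ∀ d' : Met,
          (∀ x ∈ closure O, ∀ y ∈ closure O, d' (ψ x, ψ y) = d ω (x, y)) →
          Out2 O d' ((m ω).map ψ) (fun n => ψ '' Y (l (φ n)) ω) fun n => τ (l (φ n)) := by
  have F := M.all
  have R := refOK F
  obtain ⟨A, κ, hL⟩ := localLaw F R (HO.outM F)
  refine ⟨tau M.γ A κ, tau_pos hL, fun Ω _ P _ h f O d m Y hc hY l hl => ?_⟩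
  rcases hc with ⟨a, rfl, b⟩ | ⟨a, rfl, b⟩ | ⟨a, rfl, b⟩ | ⟨⟨ℓ, hℓ, a⟩, rfl, b⟩ |
    ⟨⟨ℓ, hℓ, a, -, b⟩, rfl⟩
  · exact plane_aut F R hL (Or.inl ⟨a, rfl⟩) b hY hl
  · exact plane_aut F R hL (Or.inr ⟨a, rfl⟩) b hY hl
  · exact pack_aut F R hL (Or.inl rfl) (Fx.pack_wedge F R a b) hY hl
  · exact pack_aut F R hL (Or.inr rfl) (Fx.pack_disk F R hℓ a b) hY hl
  · exact Fx.transfer F R hℓ b hY (C := fun φ d m Y => OutA (Metric.ball 0 1) d m
      (fun n => Y (l (φ n))) fun n => tau M.γ A κ (l (φ n)))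
      fun _ _ _ _ _ _ _ hp hY => pack_aut F R hL (Or.inr rfl) hp hY hl

end Pool.Agent.Lib.MP_0d9445_pr.Fin
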