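import Pool.Agent.Lib.MP_0d9445_pr.Fin.Stmt
import Pool.Agent.Lib.MP_0d9445_pr.Bd.Chart
import Pool.Agent.Lib.MP_0d9445_pr.Bd.Pull

/-! Charts composed with automorphisms of the disc. -/

open MeasureTheory Set Filter Topology Metric
open scoped NNReal ENNReal

noncomputable section

namespace Pool.Agent.Lib.MP_0d9445_pr.Fin

open Bd

variable {ψ χ χi : ℂ → ℂ} {k : ℝ} {O O' E S S' : Set ℂ} {d d' : Met}

/-- a metric moved by a continuous map -/
theorem metOn_push (h : MetOn S d) (hψ : ContinuousOn ψ S) (hS : ψ '' S = S')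
    (e : ∀ x ∈ S, ∀ y ∈ S, d' (ψ x, ψ y) = d (x, y)) : MetOn S' d' := by
  subst hS
  refine ⟨?_, ?_, ?_, ?_⟩
  · rintro _ ⟨x, hx, rfl⟩
    rw [e x hx x hx, h.self x hx]
  · rintro _ ⟨x, hx, rfl⟩ _ ⟨y, hy, rfl⟩
    rw [e x hx y hy, e y hy x hx, h.symm x hx y hy]
  · rintro _ ⟨x, hx, rfl⟩ _ ⟨y, hy, rfl⟩ _ ⟨z, hz, rfl⟩
    rw [e x hx y hy, e y hy z hz, e x hx z hz]
    exact h.tri x hx y hy z hz
  · rintro _ ⟨x, hx, rfl⟩ ε hε
    obtain ⟨η, hη, h1⟩ := Metric.continuousWithinAt_iff.1 (hψ x hx) ε hε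
    obtain ⟨δ, hδ, h2⟩ := h.topo x hx η hη
    refine ⟨δ, hδ, ?_⟩
    rintro _ ⟨y, hy, rfl⟩ a
    rw [dist_comm]
    exact h1 hy (dist_comm x y ▸ h2 y hy (e x hx y hy ▸ a))

/-- a holomorphic contraction with Lipschitz inverse from `closure O` onto `closure O'` -/
structure Bil (ψ : ℂ → ℂ) (k : ℝ) (O O' : Set ℂ) : Prop where
  meas : Measurable ψ
  holo : DifferentiableOn ℂ ψ O
  pos : 0 < k
  lo : ∀ z ∈ closure O, ∀ w ∈ closure O, dist z w ≤ k * dist (ψ z) (ψ w)
  hi : ∀ z ∈ closure O, ∀ w ∈ closure O, dist (ψ z) (ψ w) ≤ dist z w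
  isOpen : IsOpen O'
  image : ψ '' O = O'
  image' : ψ '' closure O = closure O'
  exit : ∀ (W : Measure BM.Path) (z : ℂ), BM.IsWiener W → ∀ᵐ ω ∂BM.Px W z, ∃ t, ω t ∉ O'

namespace Bil

variable (B : Bil ψ k O O')
include B

theorem lip : LipschitzOnWith 1 ψ (closure O) :=
  LipschitzOnWith.of_dist_le_mul fun z hz w hw => by simpa using B.hi z hz w hw

theorem inj : InjOn ψ (closure O) := fun z hz w hw e => by
  have := B.lo z hz w hw
  rw [e, dist_self, mul_zero] at this
  exact dist_le_zero.1 this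

theorem inv {z : ℂ} (hz : z ∈ closure O) : Function.invFunOn ψ (closure O) (ψ z) = z :=
  B.inj.leftInvOn_invFunOn hz

theorem lipi : LipschitzOnWith k.toNNReal (Function.invFunOn ψ (closure O)) (ψ '' closure O) :=
  LipschitzOnWith.of_dist_le_mul <| by
    rintro _ ⟨z, hz, rfl⟩ _ ⟨w, hw, rfl⟩
    rw [B.inv hz, B.inv hw, Real.coe_toNNReal _ B.pos.le]
    exact B.lo z hz w hw

theorem chart (c : Chart χ χi O E) :
    Chart (ψ ∘ χ) (χi ∘ Function.invFunOn ψ (closure O)) O' (ψ '' E) := by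
  have hE : E ⊆ closure O := c.bdry.trans frontier_subset_closure
  have h1 : ψ '' (closure O \ E) = closure O' \ ψ '' E := by
    rw [B.inj.image_sdiff_subset hE, B.image']
  have h2 : MapsTo χ (closure UH) (closure O) := fun z hz => (c.mem hz).1
  refine ⟨B.meas.comp c.meas, B.holo.comp c.holo fun z hz => c.image ▸ mem_image_of_mem χ hz,
    by simpa using B.lip.comp c.lip h2, B.isOpen, by rw [image_comp, c.image, B.image],
    by rw [image_comp, c.image', h1], c.fin.image ψ, ?_, fun z hz => ?_, ?_, fun R => ?_,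
    B.exit⟩
  · rintro _ ⟨e, he, rfl⟩
    rw [B.isOpen.frontier_eq]
    refine ⟨B.image' ▸ mem_image_of_mem ψ (hE he), fun a => ?_⟩
    obtain ⟨w, hw, b⟩ := B.image.symm ▸ a
    have := c.bdry he
    rw [c.isOpen.frontier_eq] at this
    exact this.2 (B.inj (subset_closure hw) (hE he) b ▸ hw)
  · simp only [Function.comp_apply, B.inv (h2 hz), c.inv z hz]
  · rw [← h1]
    refine c.cont.comp (B.lipi.continuousOn.mono (image_mono sdiff_subset)) ?_
    rintro _ ⟨z, hz, rfl⟩
    rwa [B.inv hz.1]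
  · obtain ⟨L, hL⟩ := c.lipi R
    refine ⟨L * k.toNNReal, hL.comp (B.lipi.mono ?_) ?_⟩
    · rintro _ ⟨z, hz, rfl⟩
      exact ⟨_, h2 hz.1, rfl⟩
    · rintro _ ⟨z, hz, rfl⟩
      exact ⟨z, hz, (B.inv (h2 hz.1)).symm⟩

end Bil

theorem bil_of_aut (h : IsAut (ball 0 1) ψ) :
    ∃ s k : ℝ, 0 < s ∧ Bil (fun z => s * ψ z) k (ball 0 1) (ball 0 s) := by
  obtain ⟨a, b, c, e, hne, hψ, hb⟩ := h
  obtain rfl : ψ = fun z => (a * z + b) / (c * z + e) := funext hψ
  obtain ⟨m, hm, h1⟩ := (isBounded_ball (x := (0 : ℂ)) (r := 1)).isCompact_closure.exists_forall_le'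
    (f := fun z => ‖c * z + e‖) (a := 0) (by fun_prop) fun z hz => norm_pos_iff.2 (hne z hz)
  have h2 : ∀ z ∈ closure (ball (0 : ℂ) 1), ‖c * z + e‖ ≤ ‖c‖ + ‖e‖ := fun z hz => by
    have := mem_closedBall_zero_iff.1 (closure_ball_subset_closedBall hz)
    refine (norm_add_le _ _).trans ?_
    rw [norm_mul]
    nlinarith [norm_nonneg c]
  have key : ∀ z ∈ closure (ball (0 : ℂ) 1), ∀ w ∈ closure (ball (0 : ℂ) 1),
      dist ((a * z + b) / (c * z + e)) ((a * w + b) / (c * w + e)) * (‖c * z + e‖ * ‖c * w + e‖) =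
        ‖a * e - b * c‖ * dist z w := fun z hz w hw => by
    rw [dist_eq_norm, dist_eq_norm, ← norm_mul, ← norm_mul, ← norm_mul,
      div_sub_div _ _ (hne z hz) (hne w hw), div_mul_cancel₀ _ (mul_ne_zero (hne z hz) (hne w hw))]
    congr 1
    ring
  have m0 : (0 : ℂ) ∈ ball (0 : ℂ) 1 := by simp
  have m1 : (1 / 2 : ℂ) ∈ ball (0 : ℂ) 1 := by
    simp only [mem_ball_zero_iff, norm_div, norm_one, Complex.norm_ofNat]
    norm_num
  have hD : 0 < ‖a * e - b * c‖ := by
    refine (norm_nonneg _).lt_of_ne fun k => ?_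
    have := key 0 (subset_closure m0) _ (subset_closure m1)
    rw [← k, zero_mul, mul_eq_zero, dist_eq_zero] at this
    rcases this with t | t
    · have := hb.injOn m0 m1 t
      norm_num at this
    · exact (mul_pos (hm.trans_le (h1 _ (subset_closure m0)))
        (hm.trans_le (h1 _ (subset_closure m1)))).ne' t
  have hM : 0 < ‖c‖ + ‖e‖ := hm.trans_le ((h1 _ (subset_closure m0)).trans (h2 _ (subset_closure m0)))
  set s : ℝ := m ^ 2 / ‖a * e - b * c‖ with hs
  have s0 : 0 < s := by positivity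
  have hd : ∀ u v : ℂ, dist (s * u) (s * v) = s * dist u v := fun u v => by
    rw [dist_eq_norm, dist_eq_norm, ← mul_sub, norm_mul, Complex.norm_real, Real.norm_of_nonneg s0.le]
  have hc : ContinuousOn (fun z => s * ((a * z + b) / (c * z + e))) (closure (ball (0 : ℂ) 1)) :=
    continuousOn_const.mul (ContinuousOn.div (by fun_prop) (by fun_prop) hne)
  have him : (fun z => s * ((a * z + b) / (c * z + e))) '' ball 0 1 = ball 0 s := by
    refine Subset.antisymm ?_ fun w hw => ?_
    · rintro _ ⟨z, hz, rfl⟩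
      have := mem_ball.1 (hb.mapsTo hz)
      rw [mem_ball, ← mul_zero (s : ℂ), hd]
      nlinarith
    · have s1 : (s : ℂ) ≠ 0 := Complex.ofReal_ne_zero.2 s0.ne'
      obtain ⟨z, hz, t⟩ := hb.surjOn (show w / s ∈ ball (0 : ℂ) 1 by
        rw [mem_ball_zero_iff, norm_div, Complex.norm_real, Real.norm_of_nonneg s0.le,
          div_lt_one s0]
        exact mem_ball_zero_iff.1 hw)
      refine ⟨z, hz, ?_⟩
      simp only at t ⊢
      rw [t, mul_div_cancel₀ _ s1]
  refine ⟨s, (‖c‖ + ‖e‖) ^ 2 / m ^ 2, s0, by fun_prop, ?_, by positivity, fun z hz w hw => ?_,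
    fun z hz w hw => ?_, isOpen_ball, him, him ▸ Subset.antisymm hc.image_closure (closure_minimal
      (image_mono subset_closure)
      (isBounded_ball.isCompact_closure.image_of_continuousOn hc).isClosed),
    fun _ z h => (h.ae_exitT_lt_top isBounded_ball z).mono fun _ hω =>
      ⟨_, BM.notMem_exitT isOpen_ball hω⟩⟩
  · exact (differentiableOn_const _).mul (DifferentiableOn.div (by fun_prop) (by fun_prop)
      fun z hz => hne z (subset_closure hz))
  · have t := mul_le_mul (h2 z hz) (h2 w hw) (norm_nonneg _) hM.le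
    have u := mul_le_mul_of_nonneg_left t
      (dist_nonneg (x := (a * z + b) / (c * z + e)) (y := (a * w + b) / (c * w + e)))
    rw [key z hz w hw] at u
    rw [hd, hs, ← mul_assoc, div_mul_div_cancel₀ (by positivity), div_mul_eq_mul_div,
      le_div_iff₀ hD]
    linarith
  · have t := mul_le_mul (h1 z hz) (h1 w hw) hm.le (norm_nonneg _)
    have u := mul_le_mul_of_nonneg_left t
      (dist_nonneg (x := (a * z + b) / (c * z + e)) (y := (a * w + b) / (c * w + e)))
    rw [key z hz w hw] at u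
    rw [hd, hs, div_mul_eq_mul_div, div_le_iff₀ hD]
    linarith

/-- automorphisms of the plane and of the half-plane are affine -/
theorem aff_of_aut (hO : O = univ ∨ O = UH) (h : IsAut O ψ) :
    ∃ a b : ℂ, a ≠ 0 ∧ ψ = fun z => a * z + b := by
  obtain ⟨a, b, c, e, hne, hψ, hb⟩ := h
  obtain rfl : ψ = fun z => (a * z + b) / (c * z + e) := funext hψ
  have hU : UH ⊆ O := by rcases hO with rfl | rfl <;> simp
  have hc : c = 0 := by
    by_contra hc
    have hp : -(e / c) ∉ closure O := fun k => hne _ k (by field_simp; ring)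
    rcases hO with rfl | rfl
    · simp at hp
    rw [mem_closure_UH, Complex.neg_im, not_le, neg_lt_zero] at hp
    set C : ℝ := ‖a / c‖ + ‖(b * c - a * e) / c ^ 2‖ / (e / c).im with hC
    have C0 : 0 ≤ C := by positivity
    obtain ⟨z, hz, t⟩ := hb.surjOn (show ((C + 1 : ℝ) : ℂ) * Complex.I ∈ UH by
      simp only [UH, mem_ofPred_eq, Complex.mul_I_im, Complex.ofReal_re]
      linarith)
    have h1 : (e / c).im ≤ ‖z + e / c‖ := by
      have := Complex.im_le_norm (z + e / c)
      rw [Complex.add_im] at this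
      linarith [show 0 < z.im from hz]
    have h2 : z + e / c ≠ 0 := norm_pos_iff.1 (hp.trans_le h1)
    have h3 := hne z (subset_closure hz)
    have h4 : (a * z + b) / (c * z + e) = a / c + (b * c - a * e) / c ^ 2 / (z + e / c) := by
      rw [show z + e / c = (c * z + e) / c by field_simp, div_eq_iff h3]
      generalize hu : c * z + e = u at h3
      field_simp
      rw [← hu]
      ring
    have h5 : ‖(a * z + b) / (c * z + e)‖ ≤ C := by
      rw [h4, hC]
      refine (norm_add_le _ _).trans (add_le_add le_rfl ?_)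
      rw [norm_div _ (z + e / c)]
      gcongr
    simp only at t
    rw [t, norm_mul, Complex.norm_I, mul_one, Complex.norm_real,
      Real.norm_of_nonneg (by linarith)] at h5
    linarith
  subst hc
  have m1 : Complex.I ∈ UH := by simp [UH]
  have m2 : 2 * Complex.I ∈ UH := by simp [UH]
  have he : e ≠ 0 := by simpa using hne _ (subset_closure (hU m1))
  refine ⟨a / e, b / e, div_ne_zero (fun k => ?_) he, funext fun z => by rw [zero_mul, zero_add]; ring⟩
  have := congrArg Complex.im (hb.injOn (hU m1) (hU m2) (by simp [k]))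
  simp at this

theorem image_closure_aff {a : ℂ} (ha : a ≠ 0) (b : ℂ) (O : Set ℂ) :
    (fun z => a * z + b) '' closure O = closure ((fun z => a * z + b) '' O) :=
  ((Homeomorph.mulLeft₀ a ha).trans (Homeomorph.addRight b)).image_closure O

/-- an automorphism of the half-plane or of the disc is a multiple of a contraction -/
theorem exists_bil (hO : O = UH ∨ O = ball 0 1) (h : IsAut O ψ) :
    ∃ (a : ℂ) (φ : ℂ → ℂ) (k : ℝ) (O' : Set ℂ), a ≠ 0 ∧ Bil φ k O O' ∧
      ψ = (fun z => a * z + 0) ∘ φ := by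
  rcases hO with rfl | rfl
  swap
  · obtain ⟨s, k, hs, B⟩ := bil_of_aut h
    have s1 : (s : ℂ) ≠ 0 := Complex.ofReal_ne_zero.2 hs.ne'
    exact ⟨(s : ℂ)⁻¹, _, k, _, inv_ne_zero s1, B, funext fun z => by simp [s1]⟩
  obtain ⟨a, b, ha, rfl⟩ := aff_of_aut (Or.inr rfl) h
  obtain ⟨_, _, _, _, -, -, hb⟩ := h
  have key : ∀ t : ℝ, (a * t + b).im = 0 := fun t => by
    have h1 : a * t + b ∈ closure UH := by
      rw [← hb.image_eq, ← image_closure_aff ha]
      exact ⟨t, mem_closure_UH.2 (by simp), rfl⟩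
    refine le_antisymm (not_lt.1 fun k => ?_) (mem_closure_UH.1 h1)
    obtain ⟨w, hw, e⟩ := hb.surjOn (show a * t + b ∈ UH from k)
    have : w = t := mul_left_cancel₀ ha (add_right_cancel e)
    simp [this, UH] at hw
  have h0 : b.im = 0 := by simpa using key 0
  have h1 : a.im = 0 := by simpa [h0] using key 1
  have h2 : (b / a).im = 0 := by simp [Complex.div_im, h0, h1]
  have him : (fun z => z + b / a) '' UH = UH := by
    ext w
    simp [UH, h2]
  refine ⟨a, fun z => z + b / a, 1, UH, ha, ⟨by fun_prop, by fun_prop, one_pos, by simp, by simp,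
    isOpen_UH, him, ?_, fun _ z h => exit_UH h z⟩, funext fun z => ?_⟩
  · exact ((Homeomorph.addRight (b / a)).image_closure UH).trans (congrArg closure him)
  · simp only [Function.comp_apply]
    field_simp
    ring

end Pool.Agent.Lib.MP_0d9445_pr.Fin
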