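import Pool.Agent.Lib.MP_0d9445_pr.Fin.Stmt
import Pool.Agent.Lib.MP_0d9445_pr.Bd.Unif

/-! The limit does not depend on the drawing of the edges. -/

noncomputable section

open MeasureTheory ProbabilityTheory Set Filter Topology LQ.Met
open scoped NNReal ENNReal Classical

namespace Pool.Agent.Lib.MP_0d9445_pr.Fin

open BM Cell Walk Bd Bd.Unif

namespace Geo

theorem exp_add (St : ℂ → Set ℂ) (L : ℕ) : ∀ (x : ℂ) (F G : (ℕ → ℂ) → ℝ),
    walkExp St L x (fun w => F w + G w) = walkExp St L x F + walkExp St L x G := by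
  induction L with
  | zero => exact fun _ _ _ => rfl
  | succ L ih =>
    intro x F G
    by_cases h : (St x).Finite ∧ (St x).Nonempty
    · rw [exp_succ, exp_succ, exp_succ, finsum_mem_eq_finite_toFinset_sum _ h.1,
        finsum_mem_eq_finite_toFinset_sum _ h.1, finsum_mem_eq_finite_toFinset_sum _ h.1,
        ← mul_add, ← Finset.sum_add_distrib]
      exact congrArg _ (Finset.sum_congr rfl fun y _ => ih y _ _)
    · rw [exp_junk h, exp_junk h, exp_junk h, add_zero]

theorem exp_cmp {St : ℂ → Set ℂ} {V : Set ℂ} (hV : ∀ y ∈ V, St y ⊆ V) {a b : ℝ} (ha : 0 ≤ a)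
    (L : ℕ) : ∀ x ∈ V, ∀ F G H : (ℕ → ℂ) → ℝ,
      (∀ w, (∀ i, w i ∈ V) → |F w - G w| ≤ a + b * H w) →
      |walkExp St L x F - walkExp St L x G| ≤ a + b * walkExp St L x H := by
  induction L with
  | zero => exact fun x hx F G H h => h _ fun _ => hx
  | succ L ih =>
    intro x hx F G H h
    by_cases hs : (St x).Finite ∧ (St x).Nonempty
    · refine avg_diff_le hs.1 hs.2 fun y hy => ih y (hV x hx hy) _ _ _ fun w hw => h _ fun i => ?_
      cases i with
      | zero => exact hx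
      | succ i => exact hw i
    · rw [exp_junk hs, exp_junk hs, exp_junk hs, sub_self, abs_zero, mul_zero, add_zero]
      exact ha

/-- An event of the first `i` steps is seen by a functional of a longer walk. -/
theorem seen2 (St : ℂ → Set ℂ) (i : ℕ) : ∀ (j : ℕ), i ≤ j → ∀ (x : ℂ) (G Ψ : (ℕ → ℂ) → ℝ),
    (∀ w w', (∀ k ≤ i, w k = w' k) → G w = G w') → (∀ w, 0 ≤ G w) → (∀ w, w 0 = x → Ψ w ≤ G w) →
      (walkExp St i x fun w => 1 - G w) ≤ 1 - walkExp St j x Ψ := by
  induction i with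
  | zero =>
    intro j _ x G Ψ hG h0 h
    show 1 - G (fun _ => x) ≤ _
    have h1 : walkExp St j x Ψ ≤ G fun _ => x := by
      cases j with
      | zero => exact h _ rfl
      | succ j =>
        have h2 := walkbasics_ok.abs_le St (j + 1) x (fun _ => G fun _ => x) _ fun _ =>
          (abs_of_nonneg (h0 _)).le
        refine le_trans ?_ ((le_abs_self _).trans h2)
        by_cases hs : (St x).Finite ∧ (St x).Nonempty
        · rw [exp_succ, exp_succ, finsum_mem_eq_finite_toFinset_sum _ hs.1,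
            finsum_mem_eq_finite_toFinset_sum _ hs.1]
          refine mul_le_mul_of_nonneg_left (Finset.sum_le_sum fun y _ =>
            PgP3x.mono St j y _ _ fun w => (h _ rfl).trans (hG _ _ fun k hk => ?_).le) (by positivity)
          rw [Nat.le_zero.1 hk]
          rfl
        · rw [exp_junk hs, exp_junk hs]
    linarith
  | succ i ih =>
    intro j hj x G Ψ hG h0 h
    obtain ⟨j, rfl⟩ := Nat.exists_eq_add_of_le' (Nat.le_add_left 1 i |>.trans hj)
    by_cases hs : (St x).Finite ∧ (St x).Nonempty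
    · have hp : (0 : ℝ) < (St x).ncard := by exact_mod_cast (ncard_pos hs.1).2 hs.2
      rw [exp_succ, exp_succ, finsum_mem_eq_finite_toFinset_sum _ hs.1,
        finsum_mem_eq_finite_toFinset_sum _ hs.1, le_sub_iff_add_le, ← mul_add,
        ← Finset.sum_add_distrib, inv_mul_le_iff₀ hp, mul_one, ncard_eq_toFinset_card _ hs.1]
      refine (Finset.sum_le_card_nsmul _ _ 1 fun y _ => ?_).trans (by simp)
      refine le_sub_iff_add_le.1 (ih j (by omega) y (fun w => G (consPath x w)) _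
        (fun w w' hw => hG _ _ fun k hk => ?_) (fun w => h0 _) fun w _ => h _ rfl)
      cases k with
      | zero => rfl
      | succ k => exact hw k (by omega)
    · rw [exp_junk hs, exp_junk hs]
      norm_num

/-- Convergence in law forces the limit functionals to be measurable. -/
theorem meas {Ω : Type} [MeasurableSpace Ω] {Q : Measure Ω} [IsProbabilityMeasure Q]
    {X : ℝ → Ω → ℂ} {St : ℕ → ℂ → Set ℂ} {x : ℕ → ℂ} {m : ℕ → ℝ} (h : PathConv Q X St x m)
    {T : ℝ} (hT : 0 < T) (F : BoundedContinuousFunction C(Icc (0 : ℝ) T, ℂ) ℝ) :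
    AEStronglyMeasurable (fun ω => F (toC T fun t => X t ω)) Q := by
  by_contra hn
  have h1 := h T hT F
  have h2 := h T hT (F + 1)
  have h3 := h T hT 1
  rw [integral_non_aestronglyMeasurable hn] at h1
  rw [integral_non_aestronglyMeasurable fun a => hn
    ((a.sub (aestronglyMeasurable_const (b := (1 : ℝ)))).congr
      (Eventually.of_forall fun ω => by simp))] at h2
  simp only [BoundedContinuousFunction.coe_add, Pi.add_apply, exp_add] at h2
  simpa using tendsto_nhds_unique (h1.add h3) h2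

theorem lip_of {Ω : Type} [MeasurableSpace Ω] {Q : Measure Ω} [IsProbabilityMeasure Q]
    {X : ℝ → Ω → ℂ} {St : ℕ → ℂ → Set ℂ} {x : ℕ → ℂ} {m : ℕ → ℝ} (h : PathConv Q X St x m) :
    PathConvLip Q X St x m := fun T hT F _ c hF hc =>
  let G := BoundedContinuousFunction.ofNormedAddCommGroup F hF.continuous c hc
  ⟨meas h hT G, h T hT G⟩

/-- Every admissible edge from `a` to `b` stays within `η` of `a`. -/
def Good (S : Set ℂ) (d : Met) (η : ℝ) (a b : ℂ) : Prop :=
  a ∈ S → b ∈ S → ∀ u ∈ S, ‖u - a‖ ≤ ‖b - a‖ ∨ d (a, u) ≤ d (a, b) → ‖u - a‖ ≤ η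

theorem good_unif {S K : Set ℂ} {d : Met} (hS : IsClosed S) (hd : MetOn S d) (hK : IsCompact K)
    {η : ℝ} (hη : 0 < η) : ∃ δ > 0, ∀ a ∈ K, ∀ b, ‖b - a‖ ≤ δ → Good S d η a b := by
  have loc : ∀ z ∈ K ∩ S, ∃ δ > 0, ∀ a, dist a z < δ → ∀ b, dist b z < δ → Good S d η a b := by
    intro z ⟨_, hz⟩
    obtain ⟨ρ, hρ, h1⟩ := hd.topo z hz (η / 2) (half_pos hη)
    have hc : Tendsto d (𝓝 (z, z)) (𝓝 0) := hd.self z hz ▸ d.continuous.tendsto (z, z)
    obtain ⟨r, hr, h2⟩ := Metric.tendsto_nhds_nhds.1 hc (ρ / 2) (half_pos hρ)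
    have h3 : ∀ a b, dist a z < r → dist b z < r → d (a, b) < ρ / 2 := fun a b ha hb => by
      have := h2 (x := (a, b)) (by rw [Prod.dist_eq]; exact max_lt ha hb)
      rw [dist_zero_right] at this
      exact (le_abs_self _).trans_lt this
    refine ⟨min r (η / 2), by positivity, fun a ha b hb a1 b1 u hu h => ?_⟩
    rw [lt_min_iff] at ha hb
    rcases h with h | h
    · have := dist_triangle_right b a z
      rw [dist_eq_norm b a] at this
      linarith [ha.2, hb.2]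
    · have h4 := h1 u hu (by
        linarith [hd.tri z hz a a1 u hu, h3 a b ha.1 hb.1, h3 z a (by simpa using hr) ha.1])
      have := dist_triangle_left u a z
      rw [dist_eq_norm u a, dist_comm z a] at this
      linarith [ha.2]
  choose! r hr using loc
  obtain ⟨δ, hδ, h⟩ := lebesgue_number_lemma_of_metric (hK.inter_right hS)
    (c := fun z : ↥(K ∩ S) => Metric.ball z.1 (r z)) (fun _ => Metric.isOpen_ball)
    fun z hz => mem_iUnion.2 ⟨⟨z, hz⟩, Metric.mem_ball_self (hr z hz).1⟩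
  refine ⟨δ / 2, half_pos hδ, fun a ha b hb a1 => ?_⟩
  obtain ⟨z, hz⟩ := h a ⟨ha, a1⟩
  exact (hr z z.2).2 a (hz (Metric.mem_ball_self hδ)) b
    (hz (by rw [Metric.mem_ball, dist_eq_norm]; linarith)) a1

theorem frac_mem {u : ℝ} (hu : 0 ≤ u) : u - ⌊u⌋₊ ∈ Icc (0 : ℝ) 1 :=
  ⟨sub_nonneg.2 (Nat.floor_le hu), by linarith [Nat.lt_floor_add_one u]⟩

theorem contOn_interpE {S V : Set ℂ} {d : Met} {e : ℂ → ℂ → ℝ → ℂ} (he : IsEdges S d V e)
    {w : ℕ → ℂ} (hw : ∀ i, w i ∈ V) (k : ℕ) : ContinuousOn (interpE e 1 w) (Icc 0 k) := by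
  have hp := fun i => (he _ (hw i) _ (hw (i + 1))).1
  induction k with
  | zero => simp
  | succ k ih =>
    rw [Nat.cast_succ, ← Icc_union_Icc_eq_Icc (b := (k : ℝ)) k.cast_nonneg (by linarith)]
    refine ih.union_of_isClosed ?_ isClosed_Icc isClosed_Icc
    refine ((hp k).cont.comp (f := fun u : ℝ => u - k) (by fun_prop)
      fun u hu => ⟨by linarith [hu.1], by linarith [hu.2]⟩).congr fun u hu => ?_
    simp only [interpE, one_mul, Function.comp]
    rcases hu.2.eq_or_lt with h | h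
    · have : ⌊u⌋₊ = k + 1 := by rw [h, ← Nat.cast_succ, Nat.floor_natCast]
      rw [this, h, Nat.cast_succ, sub_self, add_sub_cancel_left, (hp _).src, (hp _).tgt]
    · rw [(Nat.floor_eq_iff (k.cast_nonneg.trans hu.1)).2 ⟨hu.1, h⟩]

theorem cont_interpE {S V : Set ℂ} {d : Met} {e : ℂ → ℂ → ℝ → ℂ} (he : IsEdges S d V e)
    {w : ℕ → ℂ} (hw : ∀ i, w i ∈ V) {m : ℝ} (hm : 0 ≤ m) (T : ℝ) :
    Continuous fun t : Icc (0 : ℝ) T => interpE e m w t := by
  have := (contOn_interpE he hw ⌈m * T⌉₊).comp_continuous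
    (f := fun t : Icc (0 : ℝ) T => m * t.1) (by fun_prop) fun t =>
      ⟨mul_nonneg hm t.2.1, (mul_le_mul_of_nonneg_left t.2.2 hm).trans (Nat.le_ceil _)⟩
  exact this.congr fun t => by simp only [interpE, one_mul, Function.comp]

/-- Along a good step the two interpolations are close. -/
theorem near {S V : Set ℂ} {d : Met} {e : ℂ → ℂ → ℝ → ℂ} (he : IsEdges S d V e) (hV : V ⊆ S)
    {w : ℕ → ℂ} (hw : ∀ i, w i ∈ V) {m η t : ℝ} (hm : 0 < m) (ht : 0 ≤ t)
    (hg : Good S d η (w ⌊m * t⌋₊) (w (⌊m * t⌋₊ + 1))) :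
    ‖interpE e m w t - interp m w t‖ ≤ 2 * η := by
  have hf := frac_mem (mul_nonneg hm.le ht)
  obtain ⟨h1, h2⟩ := he _ (hw ⌊m * t⌋₊) _ (hw (⌊m * t⌋₊ + 1))
  have h3 := hg (hV (hw _)) (hV (hw _))
  have h4 := h3 _ (h1.maps hf) (h2 _ hf)
  have h5 := ((ip_ok m w hm).2.2 t ht).trans (h3 _ (hV (hw _)) (Or.inl le_rfl))
  have := norm_sub_le_norm_sub_add_norm_sub (interpE e m w t) (w ⌊m * t⌋₊) (interp m w t)
  rw [norm_sub_rev (w _)] at this
  exact this.trans (by unfold interpE; linarith)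

/-- the paths with a bad pair of positions at two close times, and one far point -/
def bad (S : Set ℂ) (d : Met) (η : ℝ) (k : ℕ) (T : ℝ) : Set C(Icc (0 : ℝ) T, ℂ) :=
  {q | (∃ s t, dist s t ≤ (k : ℝ)⁻¹ ∧ ¬ Good S d η (q s) (q t)) ∨ q = ContinuousMap.const _ (k : ℂ)}

/-- a Lipschitz cut-off that vanishes on `bad` -/
def cut (S : Set ℂ) (d : Met) (η : ℝ) (k : ℕ) (T : ℝ) (p : C(Icc (0 : ℝ) T, ℂ)) : ℝ :=
  min 1 (k * Metric.infDist p (bad S d η k T))

theorem cut_lip (S : Set ℂ) (d : Met) (η : ℝ) (k : ℕ) (T : ℝ) :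
    LipschitzWith k (cut S d η k T) := by
  refine LipschitzWith.const_min (LipschitzWith.of_dist_le_mul fun p q => ?_) 1
  have := (Metric.lipschitz_infDist_pt (bad S d η k T)).dist_le_mul p q
  rw [Real.dist_eq, ← mul_sub, abs_mul, Nat.abs_cast, NNReal.coe_natCast]
  exact mul_le_mul_of_nonneg_left (by simpa [Real.dist_eq] using this) k.cast_nonneg

theorem cut_abs (S : Set ℂ) (d : Met) (η : ℝ) (k : ℕ) (T : ℝ) (p : C(Icc (0 : ℝ) T, ℂ)) :
    |cut S d η k T p| ≤ 1 := by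
  rw [cut, abs_of_nonneg (le_min one_pos.le (mul_nonneg k.cast_nonneg Metric.infDist_nonneg))]
  exact min_le_left _ _

theorem cut_one {S : Set ℂ} {d : Met} (hS : IsClosed S) (hd : MetOn S d) {η T : ℝ} (hη : 0 < η)
    (hT : 0 ≤ T) (p : C(Icc (0 : ℝ) T, ℂ)) : ∀ᶠ k : ℕ in atTop, cut S d η k T p = 1 := by
  obtain ⟨δ, hδ, h1⟩ := good_unif hS hd (isCompact_closedBall (0 : ℂ) (‖p‖ + 1)) hη
  obtain ⟨ρ, hρ, h2⟩ := Metric.uniformContinuous_iff.1
    (CompactSpace.uniformContinuous_of_continuous p.continuous) (δ / 3) (by positivity)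
  have hi : Tendsto (fun k : ℕ => (k : ℝ)⁻¹) atTop (𝓝 0) := tendsto_inv_atTop_nhds_zero_nat
  filter_upwards [hi.eventually (gt_mem_nhds hρ),
    hi.eventually (gt_mem_nhds (show 0 < δ / 3 by positivity)),
    hi.eventually (gt_mem_nhds one_pos), eventually_gt_atTop 0,
    tendsto_natCast_atTop_atTop.eventually_ge_atTop (‖p‖ + 1)] with k k1 k2 k3 k4 k5
  have hk : (0 : ℝ) < k := by exact_mod_cast k4
  refine min_eq_left ?_
  rw [← inv_mul_le_iff₀ hk, mul_one]
  have hne : (bad S d η k T).Nonempty := ⟨ContinuousMap.const _ (k : ℂ), Or.inr rfl⟩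
  refine (Metric.le_infDist hne).2 fun q hq => not_lt.1 fun hlt => ?_
  have hn : ∀ t, ‖q t - p t‖ < (k : ℝ)⁻¹ := fun t => by
    rw [← dist_eq_norm, dist_comm]
    exact (ContinuousMap.dist_apply_le_dist t).trans_lt hlt
  have hq1 : ∀ t, ‖q t‖ < ‖p‖ + 1 := fun t => by
    linarith [norm_le_norm_add_norm_sub' (q t) (p t), p.norm_coe_le_norm t, hn t]
  rcases hq with ⟨s, t, a, b⟩ | rfl
  · refine b (h1 _ (mem_closedBall_zero_iff.2 (hq1 s).le) _ ?_)
    have c1 := h2 (a.trans_lt k1)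
    rw [dist_comm, dist_eq_norm] at c1
    have c2 := norm_sub_le_norm_sub_add_norm_sub (q t) (p t) (q s)
    have c3 := norm_sub_le_norm_sub_add_norm_sub (p t) (p s) (q s)
    rw [norm_sub_rev (p s)] at c3
    linarith [hn s, hn t]
  · have := hq1 ⟨0, le_rfl, hT⟩
    simp only [ContinuousMap.const_apply, Complex.norm_natCast] at this
    linarith

theorem cut_interp {S : Set ℂ} {d : Met} {η m T : ℝ} {k L : ℕ} (hk : 0 < k) (hm : (k : ℝ) ≤ m)
    (hL : (L : ℝ) ≤ m * T) (w : ℕ → ℂ) : cut S d η k T (toC T (interp m w)) ≤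
      if ∀ i < L, Good S d η (w i) (w (i + 1)) then 1 else 0 := by
  split_ifs with h
  · exact min_le_left _ _
  · push Not at h
    obtain ⟨i, hi, h⟩ := h
    have hk0 : (0 : ℝ) < k := by exact_mod_cast hk
    have hm0 : 0 < m := hk0.trans_le hm
    have h1 : ∀ j : ℕ, j ≤ L → (j : ℝ) / m ∈ Icc (0 : ℝ) T := fun j hj =>
      ⟨by positivity, by
        rw [div_le_iff₀ hm0, mul_comm]
        exact (Nat.cast_le.2 hj).trans hL⟩
    have h2 : toC T (interp m w) ∈ bad S d η k T := Or.inl ⟨⟨_, h1 i hi.le⟩, ⟨_, h1 (i + 1) hi⟩, by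
      rw [Subtype.dist_eq, Real.dist_eq, ← sub_div, Nat.cast_succ, sub_add_cancel_left, abs_div,
        abs_neg, abs_one, abs_of_pos hm0, one_div]
      exact inv_anti₀ hk0 hm, by
      rwa [coe_toC (cont_interp hm0 _ w), coe_toC (cont_interp hm0 _ w), (ip_ok m w hm0).2.1,
        (ip_ok m w hm0).2.1]⟩
    rw [cut, Metric.infDist_zero_of_mem h2, mul_zero]
    exact min_le_right _ _

/-- With probability close to one all steps up to time `T` are good. -/
theorem small {Ω : Type} [MeasurableSpace Ω] {Q : Measure Ω} [IsProbabilityMeasure Q]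
    {X : ℝ → Ω → ℂ} {St : ℕ → ℂ → Set ℂ} {x : ℕ → ℂ} {m : ℕ → ℝ} (h : PathConv Q X St x m)
    (hm : Tendsto m atTop atTop) {S : Set ℂ} {d : Met} (hS : IsClosed S) (hd : MetOn S d)
    {T η ε : ℝ} (hT : 0 < T) (hη : 0 < η) (hε : 0 < ε) : ∀ᶠ n in atTop,
      (walkExp (St n) (⌈m n * T⌉₊ + 1) (x n) fun w =>
        1 - if ∀ i < ⌈m n * T⌉₊ + 1, Good S d η (w i) (w (i + 1)) then 1 else 0) ≤ ε := by
  have hT1 : 0 < T + 1 := by linarith
  have h1 := fun k : ℕ => lip_of h (T + 1) hT1 _ k 1 (cut_lip S d η k _) (cut_abs S d η k _)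
  have h2 : Tendsto (fun k : ℕ => ∫ ω, cut S d η k (T + 1) (toC (T + 1) fun t => X t ω) ∂Q) atTop
      (𝓝 (∫ _, (1 : ℝ) ∂Q)) :=
    tendsto_integral_of_dominated_convergence (fun _ => 1) (fun k => (h1 k).1)
      (integrable_const _) (fun k => Eventually.of_forall fun ω => cut_abs _ _ _ _ _ _)
      (Eventually.of_forall fun ω => tendsto_const_nhds.congr'
        ((cut_one hS hd hη hT1.le _).mono fun _ a => a.symm))
  simp only [integral_const, probReal_univ, smul_eq_mul, mul_one] at h2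
  obtain ⟨k, k1, k2⟩ := ((h2.eventually (lt_mem_nhds (sub_lt_self 1 hε))).and
    (eventually_gt_atTop 0)).exists
  filter_upwards [(h1 k).2.eventually (lt_mem_nhds k1), hm.eventually_ge_atTop k,
    hm.eventually_ge_atTop 2] with n e1 e2 e3
  have i1 : (⌈m n * T⌉₊ : ℝ) < m n * T + 1 := Nat.ceil_lt_add_one (by positivity)
  have i2 : ((⌈m n * T⌉₊ + 1 : ℕ) : ℝ) ≤ m n * (T + 1) := by
    push_cast
    linarith
  refine (seen2 (St n) _ (⌈m n * (T + 1)⌉₊ + 1)
    (Nat.succ_le_succ (Nat.ceil_mono (by linarith))) (x n) _ _ (fun w w' hw => ?_)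
    (fun w => by positivity) fun w _ => cut_interp k2 e2 i2 w).trans (by linarith)
  exact if_congr (forall₂_congr fun i hi => by rw [hw i hi.le, hw (i + 1) hi]) rfl rfl

end Geo

open Geo in
/-- Convergence of the polygonal paths gives convergence for every admissible drawing of the
edges. -/
theorem pathConv_edges {Ω : Type} [MeasurableSpace Ω] {Q : Measure Ω} [IsProbabilityMeasure Q]
    {X : ℝ → Ω → ℂ} {St : ℕ → ℂ → Set ℂ} {x : ℕ → ℂ} {m : ℕ → ℝ} (h : PathConv Q X St x m)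
    (hm : Tendsto m atTop atTop) {S : Set ℂ} {d : Met} (hS : IsClosed S) (hd : MetOn S d)
    {V : ℕ → Set ℂ} (hVS : ∀ n, V n ⊆ S) (hV : ∀ n, ∀ y ∈ V n, St n y ⊆ V n)
    (hx : ∀ᶠ n in atTop, x n ∈ V n) {e : ℕ → ℂ → ℂ → ℝ → ℂ}
    (he : ∀ n, IsEdges S d (V n) (e n)) :
    ∀ T > 0, ∀ F : BoundedContinuousFunction C(Icc (0 : ℝ) T, ℂ) ℝ,
      Tendsto (fun n => walkExp (St n) (⌈m n * T⌉₊ + 1) (x n)
        fun w => F (toC T (interpE (e n) (m n) w))) atTop
        (𝓝 (∫ ω, F (toC T fun t => X t ω) ∂Q)) := by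
  intro T hT
  let En : ℕ → (C(Icc (0 : ℝ) T, ℂ) → ℝ) → ℝ := fun n F =>
    walkExp (St n) (⌈m n * T⌉₊ + 1) (x n) fun w => F (toC T (interpE (e n) (m n) w))
  have key : ∀ (F : C(Icc (0 : ℝ) T, ℂ) → ℝ) (L : ℝ≥0) (c : ℝ), LipschitzWith L F →
      (∀ y, |F y| ≤ c) → AEStronglyMeasurable (fun ω => F (toC T fun t => X t ω)) Q ∧
      Tendsto (fun n => En n F) atTop (𝓝 (∫ ω, F (toC T fun t => X t ω) ∂Q)) := by
    intro F L c hF hc
    have hc0 : 0 ≤ c := (abs_nonneg _).trans (hc 0)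
    obtain ⟨h1, h2⟩ := lip_of h T hT F L c hF hc
    refine ⟨h1, Metric.tendsto_nhds.2 fun ε hε => ?_⟩
    obtain ⟨η, hη, hηε⟩ : ∃ η > 0, L * (2 * η) + 2 * c * η ≤ ε / 2 :=
      ⟨ε / 4 / (L + c + 1), by positivity, by
        rw [show ∀ u : ℝ, L * (2 * u) + 2 * c * u = 2 * (L + c) * u from fun u => by ring,
          ← mul_div_assoc, div_le_iff₀ (by positivity)]
        nlinarith⟩
    filter_upwards [Metric.tendsto_nhds.1 h2 _ (half_pos hε), small h hm hS hd hT hη hη, hx,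
      hm.eventually_gt_atTop 0] with n e1 e2 e3 e4
    have c1 := exp_cmp (hV n) (a := L * (2 * η)) (b := 2 * c) (by positivity)
      (⌈m n * T⌉₊ + 1) _ e3 (fun w => F (toC T (interpE (e n) (m n) w)))
      (fun w => F (toC T (interp (m n) w))) (fun w =>
        1 - if ∀ i < ⌈m n * T⌉₊ + 1, Good S d η (w i) (w (i + 1)) then 1 else 0) fun w hw => by
      split_ifs with hg
      · rw [sub_self, mul_zero, add_zero, ← Real.dist_eq]
        refine (hF.dist_le_mul _ _).trans (mul_le_mul_of_nonneg_left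
          ((ContinuousMap.dist_le (by positivity)).2 fun t => ?_) L.coe_nonneg)
        rw [coe_toC (cont_interpE (he n) hw e4.le T), coe_toC (cont_interp e4 T w), dist_eq_norm]
        exact near (he n) (hVS n) hw e4 t.2.1 (hg _ (Nat.lt_succ_of_le ((Nat.floor_mono
          (mul_le_mul_of_nonneg_left t.2.2 e4.le)).trans (Nat.floor_le_ceil _))))
      · have : (0 : ℝ) ≤ L * (2 * η) := by positivity
        linarith [abs_sub (F (toC T (interpE (e n) (m n) w))) (F (toC T (interp (m n) w))),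
          hc (toC T (interpE (e n) (m n) w)), hc (toC T (interp (m n) w))]
    have c2 := mul_le_mul_of_nonneg_left e2 (show 0 ≤ 2 * c by positivity)
    rw [Real.dist_eq] at e1 ⊢
    exact lt_of_le_of_lt (abs_sub_le _ _ _ |>.trans (add_le_add_left c1 _)) (by linarith)
  intro F
  have hE : ∀ n F G, (∀ w, F w ≤ G w) → En n F ≤ En n G := fun n F G h =>
    PgP3x.mono _ _ _ _ _ fun w => h _
  rw [Metric.tendsto_nhds]
  intro ε hε
  filter_upwards [PgP3x.lower Q hE key F.continuous (B := ‖F‖) F.norm_coe_le_norm ε hε,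
    PgP3x.lower Q hE key (F := fun w => -F w) F.continuous.neg (B := ‖F‖)
      (fun w => by simpa using F.norm_coe_le_norm w) ε hε] with n h1 h2
  have h3 : En n (fun w => -F w) = -En n F := PgP3x.neg _ _ _ _
  rw [h3, integral_neg] at h2
  show dist (En n F) _ < ε
  rw [Real.dist_eq, abs_lt]
  constructor <;> linarith

/-- The time scale of an environment tends to infinity. -/
theorem env_top {O : Set ℂ} {μ : Measure ℂ} {C : ℕ → Cells} {Γ : ℕ → Set ℂ} {a M : ℕ → ℝ}
    (hE : Env O μ C Γ a M) (hO : IsOpen O) (hn : O.Nonempty) :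
    Tendsto (fun n => M n / (2 * a n)) atTop atTop := by
  obtain ⟨z, hz⟩ := hn
  obtain ⟨K, hK, h1, h2⟩ := exists_compact_subset hO hz
  obtain ⟨_, hi, _, h⟩ := PfLocal.a_bdd geo_ok cs_ok nulow_ok hE hK h2 ⟨z, h1⟩
  exact PfLocal.m_top hE.a_pos (h.mono fun _ a => a.2) hE.M_top

end Pool.Agent.Lib.MP_0d9445_pr.Fin
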