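import Pool.Agent.Lib.MP_0d9445_pr.Tip.Final
import Pool.Agent.Lib.MP_0d9445_pr.Bd.Main
import Pool.Agent.Lib.MP_0d9445_pr.Bd.Ex
import Pool.Agent.Lib.MP_0d9445_pr.BM.Exist

/-! The four surfaces together. -/

open MeasureTheory ProbabilityTheory Set Filter Topology Real LQ.Met
open scoped NNReal ENNReal

noncomputable section

namespace Pool.Agent.Lib.MP_0d9445_pr.Fin

open CR PPP Walk Cell BM AS

variable {Ω : Type} [MeasurableSpace Ω] {M : Model} {P : Measure Ω} {N Z O : Set ℂ}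
  {Y : ℝ≥0 → Ω → Set ℂ} {A κ : ℝ → ℝ}
  {h : Ω → Field} {f : Ω → ℂ → ℝ} {d : Ω → Met} {m : Ω → Measure ℂ}

/-- what is proved for one realisation -/
def Out (O : Set ℂ) (d : Met) (μ : Measure ℂ) (Y : ℕ → Set ℂ) (τ : ℕ → ℝ) : Prop :=
  ∀ W : Measure Path, IsWiener W → ∀ B, PCAF W μ B →
    ∀ z ∈ O, ∀ y x : ℕ → ℂ, Tendsto y atTop (𝓝 z) →
      (∀ᶠ n in atTop, x n ∈ Y n ∧ y n ∈ (vorOn (closure O) d (Y n)).H (x n)) →
      PathConv (Px W z) (fun t b => lbmPath b (B b) O t)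
        (fun n => (vorOn (closure O) d (Y n)).step O) x τ

/-- the centre of the cell that contains `y n` tends to the limit of `y n` -/
theorem centre_tendsto {S : Set ℂ} {d : Met} {Y : ℕ → Set ℂ} (hd : MetOn S d) {z : ℂ} (hz : z ∈ S)
    (hY : ∀ n, Y n ⊆ S) (hp : ∀ ε > 0, ∀ᶠ n in atTop, ∃ p ∈ Y n, dist p z < ε) {y x : ℕ → ℂ}
    (hy : Tendsto y atTop (𝓝 z)) (hx : ∀ᶠ n in atTop, x n ∈ Y n ∧ y n ∈ (vorOn S d (Y n)).H (x n)) :
    Tendsto x atTop (𝓝 z) := by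
  refine Metric.tendsto_nhds.2 fun ε hε => ?_
  obtain ⟨δ, hδ, h1⟩ := hd.topo z hz ε hε
  have hc : Tendsto d (𝓝 (z, z)) (𝓝 0) := hd.self z hz ▸ d.continuous.tendsto (z, z)
  obtain ⟨η, hη, h2⟩ := Metric.tendsto_nhds_nhds.1 hc (δ / 2) (half_pos hδ)
  have h3 : ∀ a b, dist a z < η → dist b z < η → d (a, b) < δ / 2 := fun a b ha hb => by
    have := h2 (x := (a, b)) (by rw [Prod.dist_eq]; exact max_lt ha hb)
    rw [dist_zero_right] at this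
    exact (le_abs_self _).trans_lt this
  filter_upwards [hx, hp η hη, Metric.tendsto_nhds.1 hy η hη] with n ⟨a, b, c⟩ ⟨p, p1, p2⟩ e
  rw [dist_comm]
  refine h1 _ (hY n a) ?_
  linarith [hd.tri z hz _ b _ (hY n a), c p p1, h3 _ _ e p2, h3 z _ (by simpa using hη) e]

theorem vorS_eq (d : Met) (Y : Set ℂ) : vorS univ d Y = vorOn (closure univ) d Y := by
  rw [vorS_univ, closure_univ]
  simp [vor, vorOn]

theorem plane_out [IsProbabilityMeasure P] (F : M.All) (R : RefOK M) (hL : LocalLaw M A κ)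
    (hc : IsCone M.γ M.Q P h f ∧ Z = {0} ∨ IsSphere M.γ M.Q M.μ P h f ∧ Z = {0, 1})
    (hS : IsSurf M.γ M.ξ M.D M.μ Z P h f d m) (hY : ∀ l, IsPPP P d m l (Y l))
    {l : ℕ → ℝ≥0} (hl : Tendsto l atTop atTop) : ∃ φ : ℕ → ℕ, StrictMono φ ∧ ∀ᵐ ω ∂P,
      (∀ W, IsWiener W → ∃ B, PCAF W (m ω) B) ∧ Out univ (d ω) (m ω) (fun n => Y (l (φ n)) ω) fun n => tau M.γ A κ (l (φ n)) := by
  obtain ⟨N, h0, hσ⟩ : ∃ N, Surf M P univ Zᶜ N (fun ω => (d ω, m ω)) Y ∧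
      ∀ᵐ ω ∂P, SigmaFinite (m ω) := by
    rcases hc with ⟨hc, rfl⟩ | ⟨hc, rfl⟩
    · exact ⟨_, cone_surf F R hc hS hY⟩
    · exact ⟨_, sphere_surf F R hc hS hY⟩
  obtain ⟨φ, hφ, hE⟩ := Tip.env_univ micro_ok F R hL hc hS hY h0 hl
  refine ⟨φ, hφ, ?_⟩
  filter_upwards [hσ, hE, hS.length] with ω h1 ⟨h2, hE⟩ ⟨hd, _⟩
  refine ⟨fun W hW => exists_PCAF hW fun K hK => h2.frost K hK (subset_univ _),
    fun W hW B hB z _ y x hy hx => ?_⟩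
  have hm : MetOn (closure univ) (d ω) := ⟨fun x _ => hd.self x, fun x _ y _ => hd.symm x y,
    fun x _ y _ z _ => hd.tri x y z, fun x _ ε hε => (hd.topo x ε hε).imp fun _ a =>
      ⟨a.1, fun y _ => a.2 y⟩⟩
  have hxz : Tendsto x atTop (𝓝 z) := by
    refine centre_tendsto hm (by simp) (fun n => by simp) (fun ε hε => ?_) hy hx
    filter_upwards [hE.nice {z} isCompact_singleton (by simp) (ε / 2) (half_pos hε)] with n ⟨a, b⟩
    obtain ⟨p, p1, p2⟩ := b.cover z rfl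
    refine ⟨p, ?_, (b.dist_le p1 (b.mem p p1) p2).trans_lt (half_lt_self hε)⟩
    simp only [Cells.toFC, dif_pos a, Finite.mem_toFinset] at p1
    exact p1.1
  have := plane_ok W ∅ (m ω) (fun i => vorS univ (d ω) (Y (l (φ i)) ω)) (fun _ => univ)
    (fun i => A (ht M.γ (l (φ i)))) (fun i => κ (ht M.γ (l (φ i))) * l (φ i)) x z (fun _ => B) hW
    finite_empty (fun y _ => clock_of hW hB finite_empty (by rwa [compl_empty]) y)
    (by rwa [compl_empty]) (by rw [compl_empty]; exact badNegl_univ hE.nice _ x)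
    (hx.mono fun _ a => a.1) hxz (notMem_empty z)
  simp only [vorS_eq] at this
  exact pathConv_congr this (tau_eq (hl.comp hφ.tendsto_atTop) _ _ _)

theorem half_out [IsProbabilityMeasure P] (F : M.All) (R : RefOK M) (hL : LocalLaw M A κ)
    (hc : IsWedge M.γ M.Q P h f ∧ O = UH ∧ IsSurfVia M.γ M.ξ M.D M.μ id O P h f d m ∨
      (∃ ℓ > 0, IsDisk M.γ M.Q ℓ P h f) ∧ O = Metric.ball 0 1 ∧
        IsSurfVia M.γ M.ξ M.D M.μ cayley O P h f d m)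
    (hY : ∀ l, IsPPP P d m l (Y l)) {l : ℕ → ℝ≥0} (hl : Tendsto l atTop atTop) :
    ∃ φ : ℕ → ℕ, StrictMono φ ∧ ∀ᵐ ω ∂P,
      Out O (d ω) (m ω) (fun n => Y (l (φ n)) ω) fun n => tau M.γ A κ (l (φ n)) := by
  obtain ⟨φ, hφ, hE⟩ := Bd.main F R hL hc hY hl
  have hm : ∀ᵐ ω ∂P, MetOn (closure O) (d ω) := hc.elim (·.2.2.metric) (·.2.2.metric)
  refine ⟨φ, hφ, ?_⟩
  filter_upwards [hE, hm] with ω ⟨⟨h1, h2⟩, h3⟩ hm W hW B hB z hz y x hy hx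
  exact h3 z hz x (hx.mono fun _ a => a.1)
    (centre_tendsto hm (subset_closure hz) (fun n => (h1 n).trans subset_closure)
      (fun ε hε => (h2 z hz ε hε).mono fun _ ⟨p, a, _, b⟩ => ⟨p, a, b⟩) hy hx) W B hW hB

theorem main (M : Model) : ∃ τ : ℝ≥0 → ℝ, (∀ l, 0 < τ l) ∧
    ∀ (Ω : Type) [MeasurableSpace Ω] (P : Measure Ω) [IsProbabilityMeasure P]
      (h : Ω → Field) (f : Ω → ℂ → ℝ) (O : Set ℂ) (d : Ω → Met) (m : Ω → Measure ℂ)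
      (Y : ℝ≥0 → Ω → Set ℂ),
      (IsCone M.γ M.Q P h f ∧ O = univ ∧ IsSurf M.γ M.ξ M.D M.μ {0} P h f d m ∨
        IsSphere M.γ M.Q M.μ P h f ∧ O = univ ∧ IsSurf M.γ M.ξ M.D M.μ {0, 1} P h f d m ∨
        IsWedge M.γ M.Q P h f ∧ O = UH ∧ IsSurfVia M.γ M.ξ M.D M.μ id O P h f d m ∨
        (∃ ℓ > 0, IsDisk M.γ M.Q ℓ P h f) ∧ O = Metric.ball 0 1 ∧
          IsSurfVia M.γ M.ξ M.D M.μ cayley O P h f d m) →
      (∀ l, IsPPP P d m l (Y l)) →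
      ∀ l : ℕ → ℝ≥0, Tendsto l atTop atTop → ∃ φ : ℕ → ℕ, StrictMono φ ∧ ∀ᵐ ω ∂P,
        (∀ W, IsWiener W → ∃ B, PCAF W (m ω) B) ∧ Out O (d ω) (m ω) (fun n => Y (l (φ n)) ω) fun n => τ (l (φ n)) := by
  have F := M.all
  have R := refOK F
  obtain ⟨A, κ, hL⟩ := localLaw F R (HO.outM F)
  refine ⟨tau M.γ A κ, tau_pos hL, fun Ω _ P _ h f O d m Y hc hY l hl => ?_⟩
  rcases hc with ⟨a, rfl, b⟩ | ⟨a, rfl, b⟩ | hc
  · exact plane_out F R hL (Or.inl ⟨a, rfl⟩) b hY hl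
  · exact plane_out F R hL (Or.inr ⟨a, rfl⟩) b hY hl
  · exact (half_out F R hL hc hY hl).imp fun _ c => ⟨c.1, (Bd.ae_exists_PCAF F R hc).and c.2⟩

end Pool.Agent.Lib.MP_0d9445_pr.Fin
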