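import Pool.Agent.Lib.MP_0d9445_pr.Fin.Main
import Pool.Agent.Lib.MP_0d9445_pr.Fin.Bil
import Pool.Agent.Lib.MP_0d9445_pr.Fx.Main
import Pool.Agent.Lib.MP_0d9445_pr.Bd.HalfU

/-! The theorem in the image of the domain of a chart under a conformal contraction. -/

open MeasureTheory ProbabilityTheory Set Filter Topology Real LQ.Met
open scoped NNReal ENNReal

noncomputable section

namespace Pool.Agent.Lib.MP_0d9445_pr.Fin

open CR PPP Walk Cell BM AS Bd

/-- convergence on the whole time axis, for one realisation -/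
def OutU (O : Set ℂ) (d : Met) (μ : Measure ℂ) (Y : ℕ → Set ℂ) (τ : ℕ → ℝ) : Prop :=
  ∀ W : Measure Path, IsWiener W → ∀ B, PCAF W μ B →
    ∀ z ∈ O, ∀ y x : ℕ → ℂ, Tendsto y atTop (𝓝 z) →
      (∀ᶠ n in atTop, x n ∈ Y n ∧ y n ∈ (vorOn (closure O) d (Y n)).H (x n)) →
      PathConvU (Px W z) (fun t b => lbmPath b (B b) O t)
        (fun n => (vorOn (closure O) d (Y n)).step O) x τ

theorem rate_top {O : Set ℂ} {μ : Measure ℂ} {C : ℕ → Cells} {Γ : ℕ → Set ℂ} {a b : ℕ → ℝ}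
    (hE : Env O μ C Γ a b) (hO : IsOpen O) {z : ℂ} (hz : z ∈ O) :
    Tendsto (fun n => b n / (2 * a n)) atTop atTop := by
  obtain ⟨r, hr, h⟩ := Metric.nhds_basis_closedBall.mem_iff.1 (hO.mem_nhds hz)
  obtain ⟨lo, hi, -, hb⟩ := PfLocal.a_bdd geo_ok cs_ok nulow_ok hE (isCompact_closedBall z r) h
    ⟨z, mem_interior_iff_mem_nhds.2 (Metric.closedBall_mem_nhds z hr)⟩
  exact PfLocal.m_top hE.a_pos (hb.mono fun _ h => h.2) hE.M_top

variable {Ω : Type} [MeasurableSpace Ω] {M : Model} {P : Measure Ω} {Z O E : Set ℂ}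
  {Y : ℝ≥0 → Ω → Set ℂ} {A κ : ℝ → ℝ} {χ χi : ℂ → ℂ} {d : Ω → Met} {m : Ω → Measure ℂ}

/-- the conclusion in the domain of a chart, from the environment in the half-plane -/
theorem out_of_env (c : Chart χ χi O E) (hZ : Z.Finite) (hZU : Disjoint Z UH) {μ : Measure ℂ}
    {d : Met} {Y : ℕ → Set ℂ} {a b τ : ℕ → ℝ} (h1 : MeasOK μ UH) (h5 : MassH μ)
    (h2 : Env UH μ (fun i => vorOn (closure UH) (c.pull d) (Y i)) (fun _ => univ) a b)
    (h3 : EnvB Z fun i => vorOn (closure UH) (c.pull d) (Y i)) (hd : MetOn (closure O) d)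
    (hτ : ∀ᶠ n in atTop, b n / (2 * a n) = τ n) :
    Out O d (μ.map χ) (fun n => χ '' Y n) τ ∧ OutU O d (μ.map χ) (fun n => χ '' Y n) τ := by
  have hY : ∀ n, Y n ⊆ UH := fun n => (h3.sub n).1
  have hD : ∀ w ∈ UH, ∀ δ > 0, ∀ᶠ n in atTop, ∃ p ∈ Y n, dist p w ≤ δ :=
    fun w hw δ hδ => (dense_of_nice h3.nice isCompact_singleton (singleton_subset_iff.2
      (subset_closure (subset_closure hw))) hδ).mono fun _ a => a w rfl
  have hV : ∀ n, UH ∩ χ ⁻¹' (χ '' Y n) = Y n := fun n => by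
    refine Subset.antisymm ?_ fun w hw => ⟨hY n hw, mem_image_of_mem χ hw⟩
    rintro w ⟨a, p, b, e⟩
    exact c.injOn (subset_closure (hY n b)) (subset_closure a) e ▸ b
  have h7 : ∀ n, χ '' Y n ⊆ O := fun n => c.image ▸ image_mono (hY n)
  have hr := c.rel hd h7 (by simpa only [hV] using hD)
  simp only [hV] at hr
  have hxz : ∀ z ∈ O, ∀ y x : ℕ → ℂ, Tendsto y atTop (𝓝 z) → (∀ᶠ n in atTop, x n ∈ χ '' Y n ∧
      y n ∈ (vorOn (closure O) d (χ '' Y n)).H (x n)) → Tendsto x atTop (𝓝 z) := by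
    intro z hz y x hy hx
    refine centre_tendsto hd (subset_closure hz) (fun n => (h7 n).trans subset_closure)
      (fun ε hε => ?_) hy hx
    obtain ⟨w, hw, rfl⟩ := c.image.symm ▸ hz
    filter_upwards [hD w hw (ε / 4) (by positivity)] with n ⟨p, hp, e⟩
    refine ⟨χ p, mem_image_of_mem χ hp, ?_⟩
    have := c.lip.dist_le_mul p (subset_closure (hY n hp)) w (subset_closure hw)
    push_cast at this
    linarith
  have e : UH \ Z = UH := sdiff_eq_left.2 hZU.symm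
  have := h5.sigmaFinite_map c
  have hA : ∀ {W B}, IsWiener W → PCAF W (μ.map χ) B → ∀ y, IsClock W (μ.map χ) O y B :=
    fun hW hB => clock_chart_ok hW c h5.supp
      (isPCAF_of_revuz hW hB.meas hB.adapted hB.additive hB.revuz) h1
  refine ⟨fun W hW B hB z hz y x hy hx => ?_, fun W hW B hB z hz y x hy hx => ?_⟩
  · exact pathConv_congr (halfC_ok W χ χi O E Z _ _ _ _ _ x z B hW c hZ h5.supp
      (fun y _ => hA hW hB y) (e.symm ▸ h2) h3 hr (hx.mono fun _ a => a.1)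
      (hxz z hz y x hy hx) (by rwa [e, c.image])) hτ
  · exact (halfU hW c hZ h5.supp (fun y _ => hA hW hB y) (e.symm ▸ h2) h3 hr
      (hx.mono fun _ a => a.1) (hxz z hz y x hy hx) (by rwa [e, c.image])).congr hτ

theorem conv_bil (F : M.All) (R : RefOK M) (hL : LocalLaw M A κ) {c : Chart χ χi O E}
    (hp : Fx.Pack M c P d m) (hY : ∀ l, IsPPP P d m l (Y l))
    {l : ℕ → ℝ≥0} (hl : Tendsto l atTop atTop) : ∃ s : ℕ → ℕ, StrictMono s ∧ ∀ᵐ ω ∂P,
      MetOn (closure O) (d ω) ∧ Ex.Loc (m ω) O ∧ (∀ n, Y (l (s n)) ω ⊆ O) ∧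
      Tendsto (fun n => tau M.γ A κ (l (s n))) atTop atTop ∧
      ∀ ψ k O', Bil ψ k O O' → ∀ d' : Met,
        (∀ x ∈ closure O, ∀ y ∈ closure O, d' (ψ x, ψ y) = d ω (x, y)) →
        Out O' d' ((m ω).map ψ) (fun n => ψ '' Y (l (s n)) ω) (fun n => tau M.γ A κ (l (s n))) ∧
        OutU O' d' ((m ω).map ψ) (fun n => ψ '' Y (l (s n)) ω) fun n => tau M.γ A κ (l (s n)) := by
  obtain ⟨hsoft, hloc, hac, _, _, _, _, _, _, _, hS, hB⟩ := hp
  have := hB.prob
  have ha := c.area hS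
  have h0 : ∀ᵐ ω ∂P, m ω Oᶜ = 0 := ha.mono fun _ a => a.2.2.2
  obtain ⟨s, hs, hE⟩ := hB.env F R hL hsoft (fun l => c.ppp (hY l) h0)
    (fun _ _ => inter_subset_left) hac hl
  have hτ := tau_eq (hl.comp hs.tendsto_atTop) M.γ A κ
  refine ⟨s, hs, ?_⟩
  filter_upwards [hE, ha, hB.massH F, hS.metric, hloc, ae_all_iff.2 fun i =>
    ppp_subset (hY (l (s i))) c.isOpen.measurableSet h0] with ω ⟨h1, h2, h3⟩ h4 h5 h6 h8 h7
  refine ⟨h6, h8, h7, (rate_top h2 isOpen_UH (z := Complex.I) (by simp [UH])).congr' hτ,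
    fun ψ k O' B d' e => ?_⟩
  have e1 : (B.chart c).pull d' = c.pull (d ω) := ContinuousMap.ext fun p =>
    e _ (c.mem (fold_mem p.1)).1 _ (c.mem (fold_mem p.2)).1
  have e2 : (fun n => (ψ ∘ χ) '' (UH ∩ χ ⁻¹' Y (l (s n)) ω)) = fun n => ψ '' Y (l (s n)) ω :=
    funext fun n => by rw [image_comp, image_inter_preimage, c.image, inter_eq_right.2 (h7 n)]
  have := out_of_env (B.chart c) hB.fin hB.bdry h1 h5 (e1.symm ▸ h2) (e1.symm ▸ h3)
    (metOn_push h6 B.lip.continuousOn B.image' e) hτ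
  rwa [← Measure.map_map B.meas c.meas, h4.2.2.1, e2] at this

end Pool.Agent.Lib.MP_0d9445_pr.Fin
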